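import Pool.Agent.H.MP_7c6b96_al.B

set_option autoImplicit false

namespace Pool.Agent.H.MP_7c6b96_al

open Polynomial
open Pool.Agent.H.MP_23b8d1_al

theorem rel_cone (G : Type) [Group G] : {r : G → G → Prop | IsLinearOrder G r ∧
    ∀ a b c d : G, r a b → r (c * a * d) (c * b * d)}.encard = (Cone G).encard := by
  let Φ : (G → G → Prop) → Set G := fun r => {x | r 1 x ∧ x ≠ 1}
  have inj : Set.InjOn Φ {r : G → G → Prop | IsLinearOrder G r ∧
      ∀ a b c d : G, r a b → r (c * a * d) (c * b * d)} := by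
    have : ∀ r s : G → G → Prop, (∀ a b c d : G, r a b → r (c * a * d) (c * b * d)) →
        IsLinearOrder G s → (∀ a b c d : G, s a b → s (c * a * d) (c * b * d)) → Φ r = Φ s →
        ∀ a b, r a b → s a b := fun r s h1 h2 h3 e a b h => by
      by_cases k : a = b
      · exact k ▸ h2.refl a
      · have : a⁻¹ * b ∈ Φ s := e ▸ ⟨by simpa using h1 _ _ a⁻¹ 1 h, by simpa [inv_mul_eq_one] using k⟩
        simpa using h3 _ _ a 1 this.1
    intro r hr s hs e
    ext a b
    exact ⟨this r s hr.2 hs.1 hs.2 e a b, this s r hs.2 hr.1 hr.2 e.symm a b⟩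
  rw [← inj.encard_image]
  congr 1
  ext P
  constructor
  · rintro ⟨r, ⟨h1, h2⟩, rfl⟩
    refine ⟨⟨?_, ?_⟩, fun k => k.2 rfl, fun g hg => ?_⟩
    · rintro a ⟨a1, a2⟩ b ⟨b1, b2⟩
      have k : r a (a * b) := by simpa using h2 _ _ a 1 b1
      refine ⟨h1.trans _ _ _ a1 k, fun e1 => a2 ?_⟩
      rw [e1] at k
      exact h1.antisymm _ _ k a1
    · rintro x _ a ⟨a1, a2⟩
      exact ⟨by simpa using h2 _ _ x x⁻¹ a1, by simpa using a2⟩
    · rcases h1.total 1 g with k | k
      · exact Or.inl ⟨k, hg⟩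
      · exact Or.inr ⟨by simpa using h2 _ _ g⁻¹ 1 k, by simpa using hg⟩
  · rintro ⟨hP, h1, ht⟩
    have i1 : Std.Refl fun x y : G => x = y ∨ x⁻¹ * y ∈ P := ⟨fun _ => Or.inl rfl⟩
    have i2 : IsTrans G fun x y : G => x = y ∨ x⁻¹ * y ∈ P := ⟨by
      rintro x y z (rfl | k) (rfl | k')
      · exact Or.inl rfl
      · exact Or.inr k'
      · exact Or.inr k
      · exact Or.inr (by simpa [mul_assoc] using hP.mul _ k _ k')⟩
    have i3 : Std.Antisymm fun x y : G => x = y ∨ x⁻¹ * y ∈ P := ⟨by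
      rintro x y (k | k) (k' | k')
      · exact k
      · exact k
      · exact k'.symm
      · exact absurd (by simpa using hP.mul _ k _ k') h1⟩
    have i4 : Std.Total fun x y : G => x = y ∨ x⁻¹ * y ∈ P := ⟨by
      intro x y
      by_cases k : x = y
      · exact Or.inl (Or.inl k)
      · rcases ht (x⁻¹ * y) (by simpa [inv_mul_eq_one] using k) with k' | k'
        · exact Or.inl (Or.inr k')
        · exact Or.inr (Or.inr (by simpa using k'))⟩
    have i5 : IsPreorder G fun x y : G => x = y ∨ x⁻¹ * y ∈ P := ⟨⟩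
    have i6 : IsPartialOrder G fun x y : G => x = y ∨ x⁻¹ * y ∈ P := ⟨⟩
    refine ⟨fun x y => x = y ∨ x⁻¹ * y ∈ P, ⟨⟨⟩, ?_⟩, ?_⟩
    · rintro a b c d (rfl | k)
      · exact Or.inl rfl
      · exact Or.inr (by simpa [mul_assoc] using hP.cj d⁻¹ trivial _ k)
    · ext x
      constructor
      · rintro ⟨k | k, k'⟩
        · exact absurd k.symm k'
        · simpa using k
      · exact fun k => ⟨Or.inr (by simpa using k), fun e => h1 (e ▸ k)⟩

def sg (b : Bool) : ℝ := if b then 1 else -1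

theorem sg_tri (b : Bool) {x : ℝ} (h : x ≠ 0) : 0 < sg b * x ∨ 0 < sg b * -x := by
  rcases lt_or_gt_of_ne h with k | k <;> cases b <;> simp [sg, k]

theorem sg_eq {b c : Bool} {x : ℝ} (h : 0 < sg b * x) (k : 0 < sg c * x) : b = c := by
  cases b <;> cases c <;> simp [sg] at * <;> linarith

theorem sg_sq (b : Bool) : sg b * sg b = 1 := by cases b <;> simp [sg]

theorem cone_zpow {G : Type} [Group G] {Q : Set G} (hQ : Q ∈ Cone G) {t : G} (ht : t ≠ 1) :
    ∃ b, ∀ k : ℤ, 0 < sg b * k → t ^ k ∈ Q := by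
  have key : ∀ u ∈ Q, ∀ k : ℤ, 0 < k → u ^ k ∈ Q := fun u hu k hk => by
    obtain ⟨m, rfl⟩ : ∃ m : ℕ, k = (m + 1 : ℕ) := ⟨(k - 1).toNat, by omega⟩
    rw [zpow_natCast]
    exact hQ.1.pow hu m
  rcases hQ.2.2 t ht with h | h
  · exact ⟨true, fun k hk => key t h k (by simpa [sg] using hk)⟩
  · exact ⟨false, fun k hk => by simpa using key _ h (-k) (by simpa [sg] using hk)⟩

theorem cone_int : (Cone (Multiplicative ℤ)).encard = 2 := by
  let Φ : Bool → Set (Multiplicative ℤ) := fun b => {g | 0 < sg b * (g.toAdd : ℝ)}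
  have mem : ∀ b, Φ b ∈ Cone (Multiplicative ℤ) := fun b =>
    ⟨⟨fun x hx y hy => by
      show 0 < sg b * ((x.toAdd + y.toAdd : ℤ) : ℝ)
      push_cast; rw [mul_add]; exact add_pos hx hy, fun x _ y hy => by simpa using hy⟩,
      by simp [Φ], fun g hg => by simpa [Φ] using sg_tri b (x := g.toAdd) (by simpa using hg)⟩
  have inj : Function.Injective Φ := fun b c e => by
    rcases (mem b).2.2 (Multiplicative.ofAdd 1) (by simp) with h | h
    · exact sg_eq h (e ▸ h :)
    · exact sg_eq h (e ▸ h :)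
  have : Cone (Multiplicative ℤ) = Φ '' Set.univ := by
    ext Q
    constructor
    · intro hQ
      obtain ⟨b, hb⟩ := cone_zpow hQ (t := Multiplicative.ofAdd 1) (by simp)
      exact ⟨b, trivial, cone_eq (mem b) hQ fun g hg => by
        simpa [← ofAdd_zsmul] using hb _ hg⟩
    · rintro ⟨b, -, rfl⟩
      exact mem b
  rw [this, inj.injOn.encard_image, Set.encard_univ, ENat.card_eq_coe_fintype_card]
  rfl

/-- A number field generated by an element all of whose real conjugates exceed `1`. -/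
structure NF (n : ℕ) (K : Type) [Field K] [Algebra ℚ K] where
  lam : Kˣ
  fd : FiniteDimensional ℚ K
  gen : ∀ x, ∃ p : ℚ[X], aeval (lam : K) p = x
  pos : ∀ σ : K →+* ℝ, 1 < σ lam
  card : (Set.univ : Set (K →+* ℝ)).encard = n

noncomputable def pz (n : ℕ) : ℤ[X] := ∏ i ∈ Finset.range n, (X - C (8 * (i + 1 : ℤ))) - C 2

theorem pz_deg {n : ℕ} (hn : 0 < n) : (pz n).Monic ∧ (pz n).natDegree = n := by
  have m : (∏ i ∈ Finset.range n, (X - C (8 * (i + 1 : ℤ)))).Monic :=
    monic_prod_of_monic _ _ fun i _ => monic_X_sub_C _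
  have d : (∏ i ∈ Finset.range n, (X - C (8 * (i + 1 : ℤ)))).natDegree = n := by
    rw [natDegree_prod_of_monic _ _ fun i _ => monic_X_sub_C _]
    simp only [natDegree_X_sub_C, Finset.sum_const, Finset.card_range, smul_eq_mul, mul_one]
  refine ⟨m.sub_of_left (degree_C_le.trans_lt (natDegree_pos_iff_degree_pos.1 (by omega))), ?_⟩
  rw [pz, natDegree_sub_C, d]

theorem pz_irr {n : ℕ} (hn : 0 < n) : Irreducible ((pz n).map (Int.castRingHom ℚ)) := by
  obtain ⟨m, d⟩ := pz_deg hn
  refine (IsPrimitive.Int.irreducible_iff_irreducible_map_cast m.isPrimitive).1 ?_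
  refine irreducible_of_eisenstein_criterion (P := Ideal.span {2})
    ((Ideal.span_singleton_prime two_ne_zero).2 Int.prime_two) ?_ ?_
    (natDegree_pos_iff_degree_pos.1 (by omega)) ?_ m.isPrimitive
  · rw [m.leadingCoeff, Ideal.mem_span_singleton]
    norm_num
  · intro k hk
    have hk' : k < n := by rwa [coe_lt_degree, d] at hk
    have e : (pz n).map (Int.castRingHom (ZMod 2)) = X ^ n := by
      have h8 : ∀ z : ℤ, Int.castRingHom (ZMod 2) (8 * z) = 0 := fun z => by
        rw [eq_intCast, ZMod.intCast_zmod_eq_zero_iff_dvd]; omega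
      have h2 : Int.castRingHom (ZMod 2) 2 = 0 := rfl
      simp only [pz, Polynomial.map_sub, Polynomial.map_prod, map_X, map_C, h8, h2]
      simp
    have := congrArg (coeff · k) e
    simp only [coeff_map, eq_intCast, coeff_X_pow, if_neg hk'.ne] at this
    rw [Ideal.mem_span_singleton]
    exact (ZMod.intCast_zmod_eq_zero_iff_dvd _ 2).1 this
  · rw [Ideal.span_singleton_pow, Ideal.mem_span_singleton, coeff_zero_eq_eval_zero]
    simp only [pz, eval_sub, eval_prod, eval_X, eval_C]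
    have : (4 : ℤ) ∣ ∏ i ∈ Finset.range n, (0 - 8 * (i + 1 : ℤ)) :=
      Dvd.dvd.trans (by norm_num) (Finset.dvd_prod_of_mem _ (Finset.mem_range.2 hn))
    omega

theorem pz_eval (n : ℕ) (x : ℝ) : aeval x ((pz n).map (Int.castRingHom ℚ)) =
    ∏ i ∈ Finset.range n, (x - 8 * (i + 1)) - 2 := by
  rw [show Int.castRingHom ℚ = algebraMap ℤ ℚ from rfl, aeval_map_algebraMap]
  simp [pz, map_ofNat]

theorem big {n : ℕ} (hn : 0 < n) {x : ℝ} (h : ∀ i : ℕ, 4 ≤ |x - 8 * (i + 1)|) :
    4 ≤ |∏ i ∈ Finset.range n, (x - 8 * (i + 1))| := by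
  rw [Finset.abs_prod]
  calc (4 : ℝ) ≤ 4 ^ n := le_self_pow₀ (by norm_num) hn.ne'
    _ = ∏ _i ∈ Finset.range n, 4 := by simp
    _ ≤ _ := Finset.prod_le_prod (fun _ _ => by norm_num) fun i _ => h i

theorem roots {n : ℕ} (hn : 0 < n) :
    {x : ℝ | aeval x ((pz n).map (Int.castRingHom ℚ)) = 0}.encard = n := by
  have mid : ∀ j i : ℕ, (4 : ℝ) ≤ |(8 * (j : ℝ) + 4) - 8 * (i + 1)| := fun j i => by
    rcases le_or_gt j i with h | h
    · have : (j : ℝ) ≤ i := by exact_mod_cast h
      rw [abs_of_nonpos] <;> linarith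
    · have : (i : ℝ) + 1 ≤ j := by exact_mod_cast h
      rw [abs_of_nonneg] <;> linarith
  have ex : ∀ j : Fin n, ∃ x : ℝ, aeval x ((pz n).map (Int.castRingHom ℚ)) = 0 ∧
      8 * (j : ℕ) + 4 < x ∧ x < 8 * (j : ℕ) + 12 := by
    rintro ⟨j, hj⟩
    let g : ℝ → ℝ := fun x => ∏ i ∈ Finset.range n, (x - 8 * (i + 1))
    have g1 : 4 ≤ |g (8 * j + 4)| := big hn (mid j)
    have g2 : 4 ≤ |g (8 * j + 12)| := by
      have := big hn (mid (j + 1))
      push_cast at this
      rwa [show (8 : ℝ) * (j + 1) + 4 = 8 * j + 12 by ring] at this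
    have g3 : g (8 * j + 4) * g (8 * j + 12) < 0 := by
      simp only [g]
      rw [← Finset.prod_mul_distrib, ← Finset.mul_prod_erase _ _ (Finset.mem_range.2 hj)]
      refine mul_neg_of_neg_of_pos (by nlinarith) (Finset.prod_pos fun i hi => ?_)
      rcases lt_or_gt_of_ne (Finset.ne_of_mem_erase hi) with h | h
      · have : (i : ℝ) + 1 ≤ j := by exact_mod_cast h
        exact mul_pos (by linarith) (by linarith)
      · have : (j : ℝ) + 1 ≤ i := by exact_mod_cast h
        exact mul_pos_of_neg_of_neg (by linarith) (by linarith)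
    have c : ContinuousOn g (Set.Icc (8 * j + 4) (8 * j + 12)) := by fun_prop
    have le : (8 : ℝ) * j + 4 ≤ 8 * j + 12 := by linarith
    have : (2 : ℝ) ∈ g '' Set.Ioo (8 * j + 4) (8 * j + 12) := by
      rcases le_total 0 (g (8 * j + 4)) with h | h
      · rw [abs_of_nonneg h] at g1
        exact intermediate_value_Ioo' le c ⟨by nlinarith, by linarith⟩
      · have h' : 0 ≤ g (8 * j + 12) := by
          rw [abs_of_nonpos h] at g1
          nlinarith
        rw [abs_of_nonneg h'] at g2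
        exact intermediate_value_Ioo le c ⟨by linarith, by linarith⟩
    obtain ⟨x, hx, e⟩ := this
    exact ⟨x, by rw [pz_eval]; exact sub_eq_zero.2 e, hx.1, hx.2⟩
  choose r r1 r2 r3 using ex
  have inj : Function.Injective r := fun i j e => by
    have a := (r2 i).trans (e ▸ r3 j)
    have b := (r2 j).trans (e ▸ r3 i :)
    have a' : ((i : ℕ) : ℝ) < (j : ℕ) + 1 := by linarith
    have b' : ((j : ℕ) : ℝ) < (i : ℕ) + 1 := by linarith
    have a'' : (i : ℕ) < j + 1 := by exact_mod_cast a'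
    have b'' : (j : ℕ) < i + 1 := by exact_mod_cast b'
    exact Fin.ext (by omega)
  obtain ⟨m, d⟩ := pz_deg hn
  refine le_antisymm ?_ ?_
  · have : {x : ℝ | aeval x ((pz n).map (Int.castRingHom ℚ)) = 0} =
        ((pz n).map (Int.castRingHom ℚ)).rootSet ℝ := by
      ext x
      rw [mem_rootSet]
      simp [(m.map _).ne_zero]
    rw [this, ← (rootSet_finite _ _).cast_ncard_eq]
    have := ncard_rootSet_le ((pz n).map (Int.castRingHom ℚ)) ℝ
    rw [m.natDegree_map, d] at this
    exact_mod_cast this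
  · calc (n : ℕ∞) = (r '' Set.univ).encard := by rw [inj.injOn.encard_image]; simp
      _ ≤ _ := Set.encard_le_encard (by rintro _ ⟨j, -, rfl⟩; exact r1 j)

theorem exNF {n : ℕ} (hn : 0 < n) :
    ∃ (K : Type) (_ : Field K) (_ : Algebra ℚ K), Nonempty (NF n K) := by
  have : Fact (Irreducible ((pz n).map (Int.castRingHom ℚ))) := ⟨pz_irr hn⟩
  obtain ⟨p, hp⟩ : ∃ p, p = (pz n).map (Int.castRingHom ℚ) := ⟨_, rfl⟩
  have r := roots hn
  have gt : ∀ x : ℝ, aeval x p = 0 → 1 < x := fun x hx => by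
    by_contra k
    rw [hp, pz_eval, sub_eq_zero] at hx
    have := big hn (x := x) fun i => by
      have : (0 : ℝ) ≤ i := Nat.cast_nonneg i
      rw [abs_of_nonpos] <;> linarith
    rw [hx] at this
    norm_num at this
  rw [← hp] at r this
  have rt : ∀ σ : AdjoinRoot p →+* ℝ, aeval (σ (AdjoinRoot.root p)) p = 0 := fun σ => by
    have := hom_eval₂ p (AdjoinRoot.of p) σ (AdjoinRoot.root p)
    rw [AdjoinRoot.eval₂_root, map_zero, Subsingleton.elim (σ.comp _) (algebraMap ℚ ℝ)] at this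
    exact this.symm
  have im : (fun σ : AdjoinRoot p →+* ℝ => σ (AdjoinRoot.root p)) '' Set.univ =
      {x : ℝ | aeval x p = 0} := by
    ext x
    constructor
    · rintro ⟨σ, -, rfl⟩
      exact rt σ
    · exact fun hx => ⟨AdjoinRoot.lift (algebraMap ℚ ℝ) x hx, trivial, AdjoinRoot.lift_root _⟩
  have inj : Function.Injective fun σ : AdjoinRoot p →+* ℝ => σ (AdjoinRoot.root p) :=
    fun σ τ e => AdjoinRoot.ringHom_ext (Subsingleton.elim _ _) e
  rw [← im, inj.injOn.encard_image] at r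
  obtain ⟨σ, -⟩ : (Set.univ : Set (AdjoinRoot p →+* ℝ)).Nonempty :=
    Set.encard_pos.1 (by rw [r]; exact_mod_cast hn)
  have ne : AdjoinRoot.root p ≠ 0 := fun e => by
    have := gt _ (rt σ)
    rw [e, map_zero] at this
    linarith
  exact ⟨AdjoinRoot p, inferInstance, inferInstance, ⟨Units.mk0 _ ne,
    (AdjoinRoot.powerBasis this.out.ne_zero).finite, fun x => by
      obtain ⟨q, rfl⟩ := AdjoinRoot.mk_surjective x
      exact ⟨q, AdjoinRoot.aeval_eq q⟩, fun σ => gt _ (rt σ), r⟩⟩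

end Pool.Agent.H.MP_7c6b96_al
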