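import Pool.Agent.H.MP_23b8d1_al.B
import Pool.Agent.H.MP_ab86ea_al.D

set_option autoImplicit false

namespace Pool.Agent.H.MP_7c6b96_al

open scoped commutatorElement
open Filter Topology
open Pool.Agent.H.MP_23b8d1_al
open Pool.Agent.H.MP_ab86ea_al (base)

/-- Compact supports and enough transitivity. -/
structure Hyp (K : Set ℝ) (G : Subgroup Au) : Prop where
  cs : ∀ f ∈ G, ∃ R, FL f (-R) ∧ FR f R
  dense : ∀ a b : ℝ, a < b → ∃ c ∈ K, a < c ∧ c < b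
  tent : ∀ p ∈ K, ∀ s ∈ K, ∀ s' ∈ K, ∀ q ∈ K, p < s → s < q → p < s' → s' < q →
    ∃ y ∈ G, FL y p ∧ FR y q ∧ y s = s'

variable {K : Set ℝ} {G : Subgroup Au}

theorem Hyp.σ (h : Hyp K G) : Hyp {x | -x ∈ K} (G.comap σ) := by
  refine ⟨fun f hf => ?_, fun a b hab => ?_, fun p hp s hs s' hs' q hq h1 h2 h3 h4 => ?_⟩
  · obtain ⟨R, a1, a2⟩ := h.cs _ hf
    exact ⟨R, by simpa using a2.σ, by simpa using a1.σ⟩
  · obtain ⟨c, hc, c1, c2⟩ := h.dense (-b) (-a) (by linarith)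
    exact ⟨-c, by simpa using hc, by linarith, by linarith⟩
  · obtain ⟨y, hy, y1, y2, y3⟩ := h.tent _ hq _ hs _ hs' _ hp (by linarith) (by linarith)
      (by linarith) (by linarith)
    exact ⟨MP_23b8d1_al.σ y, by simpa using hy, by simpa using y2.σ, by simpa using y1.σ,
      by simp [y3]⟩

theorem Hyp.shrink (h : Hyp K G) {u v e p q : ℝ} (h1 : v < e) (h2 : p < q) (h3 : q ≤ e) :
    ∃ y ∈ G, FR y e ∧ p ≤ y u ∧ y v ≤ q := by
  obtain ⟨v', hv, v1, v2⟩ := h.dense v e h1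
  obtain ⟨m, hm, m1, m2⟩ := h.dense p q h2
  obtain ⟨p', hp, p1, p2⟩ := h.dense p m m1
  obtain ⟨e', he, e1, e2⟩ := h.dense (max v' m) e (max_lt v2 (by linarith))
  obtain ⟨L, hL, -, L1⟩ := h.dense (min v' m - 1) (min v' m) (by linarith)
  obtain ⟨y, y0, -, y1, y2⟩ := h.tent L hL v' hv m hm e' he (L1.trans_le (min_le_left _ _))
    ((le_max_left _ _).trans_lt e1) (L1.trans_le (min_le_right _ _)) ((le_max_right _ _).trans_lt e1)
  obtain ⟨s, hs, -, s1⟩ := h.dense (min (y u) m - 1) (min (y u) m) (by linarith)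
  obtain ⟨L', hL', -, L2⟩ := h.dense (min s p' - 1) (min s p') (by linarith)
  obtain ⟨z, z0, -, z1, z2⟩ := h.tent L' hL' s hs p' hp m hm (L2.trans_le (min_le_left _ _))
    (s1.trans_le (min_le_right _ _)) (L2.trans_le (min_le_right _ _)) p2
  refine ⟨z * y, mul_mem z0 y0, (z1.mono (by linarith)).mul (y1.mono e2.le), ?_, ?_⟩
  · exact p1.le.trans (z2.ge.trans (z.monotone (s1.le.trans (min_le_left _ _))))
  · have : z (y v) ≤ z (y v') := (z * y).monotone v1.le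
    rw [y2, z1 m le_rfl] at this
    exact this.trans m2.le

theorem Hyp.shrink' (h : Hyp K G) (u v : ℝ) {p q : ℝ} (h2 : p < q) : ∃ y ∈ G, p ≤ y u ∧ y v ≤ q := by
  obtain ⟨y, a, _, b⟩ := h.shrink (u := u) (v := v) (e := max (v + 1) q)
    (lt_of_lt_of_le (by linarith) (le_max_left _ _)) h2 (le_max_right _ _)
  exact ⟨y, a, b⟩

theorem Hyp.two (h : Hyp K G) {x a : Au} (hx : x ∈ G) (ha : a ∈ G) :
    ∃ R, FL x (-R) ∧ FR x R ∧ FL a (-R) ∧ FR a R := by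
  obtain ⟨R, a1, a2⟩ := h.cs x hx
  obtain ⟨R', b1, b2⟩ := h.cs a ha
  exact ⟨max R R', a1.mono (by simp), a2.mono (by simp), b1.mono (by simp), b2.mono (by simp)⟩

theorem Hyp.realize (h : Hyp K G) {x a : Au} (hx : x ∈ G) (ha : a ∈ G) :
    ∃ x' ∈ ⁅G, G⁆, x * a * x⁻¹ = x' * a * x'⁻¹ := by
  obtain ⟨R, a1, -, -, b2⟩ := h.two hx ha
  obtain ⟨z, hz, z1, -⟩ := h.shrink' (-R) 0 (p := R) (q := R + 1) (by linarith)
  have := comm b2 ((a1.inv.cj z).mono z1)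
  refine ⟨⁅x, z⁆, Subgroup.commutator_mem_commutator hx hz, ?_⟩
  calc x * a * x⁻¹ = x * (a * (z * x⁻¹ * z⁻¹)) * (z * x * z⁻¹ * x⁻¹) := by group
    _ = _ := by rw [this.eq, commutatorElement_def]; group

/-- `m` dominates all commutators supported strictly left of `e`. -/
def Rd (G : Subgroup Au) (P : Set Au) (m : Au) (e : ℝ) : Prop :=
  m ∈ P ∧ ∀ a ∈ G, ∀ b ∈ G, ∀ e', e' < e → FR a e' → FR b e' → ⁅a, b⁆ * m ^ 2 ∈ P

theorem Rd.cj {P : Set Au} (hP : NS G P) {m y : Au} {e : ℝ} (h : Rd G P m e) (hy : y ∈ G) :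
    Rd G P (y * m * y⁻¹) (y e) := by
  refine ⟨hP.cj y hy m h.1, fun a ha b hb e' he' fa fb => ?_⟩
  have hy' : y⁻¹ ∈ G := inv_mem hy
  have := hP.cj y hy _ (h.2 _ (mul_mem (mul_mem hy' ha) (inv_mem hy')) _
    (mul_mem (mul_mem hy' hb) (inv_mem hy')) ((y⁻¹ : Au) e')
    (y.lt_iff_lt.1 (by rw [RelIso.apply_inv_self]; exact he')) (fa.cj y⁻¹) (fb.cj y⁻¹))
  convert this using 1
  simp only [commutatorElement_def, pow_two]
  group

/-- The sign of an element is determined by its leftmost germ. -/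
def LD (P : Set Au) : Prop := ∀ f ∈ P, ∀ h ∈ P, ∀ l e : ℝ, FL f l →
  (∃ᶠ s in 𝓝[>] l, f s ≠ s) → l < e → ¬ FL (f * h) e

theorem exRd (hG : Hyp K G) {P : Set Au} (hP : NS G P) (hn : ¬ LD P) : ∃ m e, Rd G P m e := by
  unfold LD at hn
  push Not at hn
  obtain ⟨f, hf, h, hh, l, e, fl, fr, he, hm⟩ := hn
  have t1 : ∀ᶠ s in 𝓝[>] l, s ∈ Set.Ioo l e := Ioo_mem_nhdsGT he
  have t0 : Tendsto f (𝓝[>] l) (𝓝[>] l) := by have := tend f l; rwa [fl l le_rfl] at this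
  obtain ⟨s, ne, ⟨s1, s2⟩, s3⟩ :=
    (fr.and_eventually ((t1.and (t0.eventually t1)).and (t0.eventually (t0.eventually t1)))).exists
  obtain ⟨p, q, pq, hq, hd⟩ := disp ne
  have q1 : q ≤ e := by rcases hq with rfl | rfl; exacts [s1.2.le, s2.2.le]
  have q2 : f q ≤ e := by rcases hq with rfl | rfl; exacts [s2.2.le, s3.2.le]
  have bs : ∀ a0 ∈ G, ∀ b0 ∈ G, FL a0 p → FR a0 q → FL b0 p → FR b0 q →
      ⁅a0, b0⁆ * (f * h) ^ 2 ∈ P := fun a0 ha0 b0 hb0 a1 a2 b1 b2 =>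
    base hP hf hh ha0 (inv_mem ha0) hb0 (hd a0⁻¹ b0 a1.inv a2.inv b1 b2) (comm (a2.mono q1) hm)
      (comm (b2.mono q1) hm) (comm ((a2.inv.cj f).mono q2) hm)
  refine ⟨f * h, e, hP.mul _ hf _ hh, fun a0 ha0 b0 hb0 e' he' a2 b2 => ?_⟩
  obtain ⟨R, a1, -, b1, -⟩ := hG.two ha0 hb0
  obtain ⟨y, hy, y1, y2, y3⟩ := hG.shrink (u := -R) he' pq q1
  have hy' : y⁻¹ ∈ G := inv_mem hy
  have := hP.cj y⁻¹ hy' _ (bs _ (mul_mem (mul_mem hy ha0) hy') _ (mul_mem (mul_mem hy hb0) hy')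
    ((a1.cj y).mono y2) ((a2.cj y).mono y3) ((b1.cj y).mono y2) ((b2.cj y).mono y3))
  convert this using 1
  have m1 : Commute y ((f * h) ^ 2) := (comm y1 hm).pow_right 2
  generalize (f * h) ^ 2 = m at *
  simp only [commutatorElement_def]
  calc a0 * b0 * a0⁻¹ * b0⁻¹ * m = a0 * b0 * a0⁻¹ * b0⁻¹ * y⁻¹ * (y * m) := by group
    _ = _ := by rw [m1.eq]; group

/-- Elements supported in an interval. -/
def HI (G : Subgroup Au) (p q : ℝ) : Subgroup Au where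
  carrier := {x | x ∈ G ∧ FL x p ∧ FR x q}
  one_mem' := ⟨one_mem _, fun _ _ => rfl, fun _ _ => rfl⟩
  mul_mem' := fun a b => ⟨mul_mem a.1 b.1, a.2.1.mul b.2.1, a.2.2.mul b.2.2⟩
  inv_mem' := fun a => ⟨inv_mem a.1, a.2.1.inv, a.2.2.inv⟩

theorem HI_mono {R R' : ℝ} (h : R ≤ R') : HI G (-R) R ≤ HI G (-R') R' := fun _ hx =>
  ⟨hx.1, hx.2.1.mono (by linarith), hx.2.2.mono h⟩

theorem exHI (hG : Hyp K G) {m : Au} (h : m ∈ ⁅G, G⁆) : ∃ R, m ∈ ⁅HI G (-R) R, HI G (-R) R⁆ := by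
  rw [Subgroup.commutator_def] at h
  induction h using Subgroup.closure_induction with
  | mem x hx =>
    obtain ⟨a, ha, b, hb, rfl⟩ := hx
    obtain ⟨R, a1, a2, b1, b2⟩ := hG.two ha hb
    exact ⟨R, Subgroup.commutator_mem_commutator ⟨ha, a1, a2⟩ ⟨hb, b1, b2⟩⟩
  | one => exact ⟨0, one_mem _⟩
  | mul x y _ _ hx hy =>
    obtain ⟨R, hx⟩ := hx
    obtain ⟨R', hy⟩ := hy
    exact ⟨max R R', mul_mem
      (Subgroup.commutator_mono (HI_mono (le_max_left _ _)) (HI_mono (le_max_left _ _)) hx)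
      (Subgroup.commutator_mono (HI_mono (le_max_right _ _)) (HI_mono (le_max_right _ _)) hy)⟩
  | inv x _ hx =>
    obtain ⟨R, hx⟩ := hx
    exact ⟨R, inv_mem hx⟩

theorem ns_σ {P : Set Au} (hP : NS G P) : NS (G.comap σ) (σ ⁻¹' P) :=
  ⟨fun a ha b hb => by
    show σ (a * b) ∈ P
    rw [map_mul]; exact hP.mul _ ha _ hb, fun x hx a ha => by
    show σ (x * a * x⁻¹) ∈ P
    rw [map_mul, map_mul, map_inv]; exact hP.cj _ hx _ ha⟩

theorem dich (hG : Hyp K G) {P : Set Au} (hP : NS G P) (hPG : ∀ p ∈ P, p ∈ ⁅G, G⁆)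
    (h1 : (1 : Au) ∉ P) : LD P ∨ LD (σ ⁻¹' P) := by
  by_contra hne
  rw [not_or] at hne
  apply h1
  obtain ⟨m, e, hm⟩ := exRd hG hP hne.1
  have hP' := ns_σ hP
  obtain ⟨m1, e1, hm1⟩ := exRd hG.σ hP' hne.2
  obtain ⟨R1, r1⟩ := exHI hG (hPG _ hm.1)
  obtain ⟨R2, r2⟩ := exHI hG (hPG _ hm1.1)
  obtain ⟨R, b1, b2, b3, b4⟩ : ∃ R, R1 ≤ R ∧ R2 ≤ R ∧ -e ≤ R ∧ -e1 ≤ R :=
    ⟨max (max R1 R2) (max (-e) (-e1)), by simp, by simp, by simp, by simp⟩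
  have r1' := Subgroup.commutator_mono (HI_mono b1) (HI_mono b1) r1
  have r2' := Subgroup.commutator_mono (HI_mono b2) (HI_mono b2) r2
  rw [← Subgroup.map_subtype_commutator] at r1' r2'
  obtain ⟨n, hn, en⟩ := r1'
  obtain ⟨n', hn', en'⟩ := r2'
  have en : (n : Au) = m := en
  have en' : (n' : Au) = σ m1 := en'
  choose y hy y1 y2 using fun j : ℕ => hG.shrink' (-R) R (p := j + 1) (q := j + 2) (by linarith)
  choose z hz z1 z2 using fun j : ℕ => hG.σ.shrink' (-R) R (p := j + 1) (q := j + 2) (by linarith)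
  have hz' : ∀ j, σ (z j) ∈ G := hz
  let cj : Au → (HI G (-R) R →* Au) := fun z => (MulAut.conj z).toMonoidHom.comp (HI G (-R) R).subtype
  have cjv : ∀ z x, cj z x = z * x * z⁻¹ := fun _ _ => rfl
  have L : ∀ j (x : HI G (-R) R), FL (cj (y j) x) (j + 1) := fun j x => (x.2.2.1.cj (y j)).mono (y1 j)
  have Rr : ∀ j (x : HI G (-R) R), FR (cj (y j) x) (j + 2) := fun j x => (x.2.2.2.cj (y j)).mono (y2 j)
  have L' : ∀ j (x : HI G (-R) R), FL (cj (σ (z j)) x) (-(j + 2)) := fun j x =>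
    (x.2.2.1.cj (σ (z j))).mono (by rw [σ_apply, neg_neg]; linarith [z2 j])
  have Rr' : ∀ j (x : HI G (-R) R), FR (cj (σ (z j)) x) (-(j + 1)) := fun j x =>
    (x.2.2.2.cj (σ (z j))).mono (by rw [σ_apply]; linarith [z1 j])
  let U : Subgroup Au :=
    { carrier := {x | x ∈ G ∧ FL x 0}
      one_mem' := ⟨one_mem _, fun _ _ => rfl⟩
      mul_mem' := fun a b => ⟨mul_mem a.1 b.1, a.2.mul b.2⟩
      inv_mem' := fun a => ⟨inv_mem a.1, a.2.inv⟩ }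
  let V : Subgroup Au :=
    { carrier := {x | x ∈ G ∧ FR x 0}
      one_mem' := ⟨one_mem _, fun _ _ => rfl⟩
      mul_mem' := fun a b => ⟨mul_mem a.1 b.1, a.2.mul b.2⟩
      inv_mem' := fun a => ⟨inv_mem a.1, a.2.inv⟩ }
  have j0 : ∀ j : ℕ, (0 : ℝ) ≤ j := fun j => Nat.cast_nonneg j
  refine swindle hP n n' hn hn' (fun j => cj (y j)) (fun j => cj (σ (z j))) ?_ ?_ U V ?_ ?_ ?_ ?_ ?_ ?_ ?_
  · intro i j hij x z
    have : (i : ℝ) + 1 ≤ j := by exact_mod_cast hij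
    exact comm (Rr i x) ((L j z).mono (by linarith))
  · intro i j hij x z
    have : (i : ℝ) + 1 ≤ j := by exact_mod_cast hij
    exact (comm (Rr' j z) ((L' i x).mono (by linarith))).symm
  · intro j x
    exact ⟨mul_mem (mul_mem (hy j) x.2.1) (inv_mem (hy j)), (L j x).mono (by linarith [j0 j])⟩
  · intro j x
    exact ⟨mul_mem (mul_mem (hz' j) x.2.1) (inv_mem (hz' j)), (Rr' j x).mono (by linarith [j0 j])⟩
  · intro u hu v hv
    exact (comm hv.2 hu.2).symm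
  · intro j
    rw [cjv, en]
    exact hP.cj _ (hy j) _ hm.1
  · intro j
    rw [cjv, en']
    exact hP.cj _ (hz' j) _ hm1.1
  · intro j u hu v hv
    rw [cjv, en]
    have : y j (-R) ≤ y j e := (y j).monotone (by linarith)
    exact (hm.cj hP (hy j)).2 u hu.1 v hv.1 0 (by linarith [y1 j, j0 j]) hu.2 hv.2
  · intro j u hu v hv
    rw [cjv, en']
    have : z j (-R) ≤ z j e1 := (z j).monotone (by linarith)
    have := (hm1.cj hP' (hz j)).2 (σ u) (by simpa using hu.1) (σ v) (by simpa using hv.1) (-0)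
      (by linarith [z1 j, j0 j]) hu.2.σ hv.2.σ
    have e : σ (⁅σ u, σ v⁆ * (z j * m1 * (z j)⁻¹) ^ 2) ∈ P := this
    rwa [map_mul, map_commutatorElement, σσ, σσ, map_pow, map_mul, map_mul, map_inv] at e

/-- Strict positive cones of bi-invariant total orders. -/
def Cone (M : Type) [Group M] : Set (Set M) :=
  {P | NS Set.univ P ∧ 1 ∉ P ∧ ∀ g, g ≠ 1 → g ∈ P ∨ g⁻¹ ∈ P}

/-- Cones on the commutator subgroup. -/
def CS (G : Subgroup Au) : Set (Set Au) :=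
  {P | (∀ p ∈ P, p ∈ ⁅G, G⁆) ∧ NS G P ∧ 1 ∉ P ∧ ∀ g ∈ ⁅G, G⁆, g ≠ 1 → g ∈ P ∨ g⁻¹ ∈ P}

theorem cone_cs (hG : Hyp K G) : (Cone (⁅G, G⁆ : Subgroup Au)).encard = (CS G).encard := by
  have le : ⁅G, G⁆ ≤ G := Subgroup.commutator_le_self G
  rw [← (Set.image_injective.2 Subtype.val_injective).injOn.encard_image]
  congr 1
  ext P
  constructor
  · rintro ⟨Q, ⟨q1, q2, q3⟩, rfl⟩
    refine ⟨?_, ⟨?_, ?_⟩, ?_, fun g hg h1 => ?_⟩
    · rintro _ ⟨u, _, rfl⟩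
      exact u.2
    · rintro _ ⟨u, hu, rfl⟩ _ ⟨v, hv, rfl⟩
      exact ⟨_, q1.mul _ hu _ hv, rfl⟩
    · rintro x hx _ ⟨u, hu, rfl⟩
      obtain ⟨x', hx', e⟩ := hG.realize hx (le u.2)
      exact ⟨_, q1.cj ⟨x', hx'⟩ trivial _ hu, e.symm⟩
    · rintro ⟨u, hu, e⟩
      exact q2 (by rwa [show u = 1 from Subtype.ext e] at hu)
    · rcases q3 ⟨g, hg⟩ (fun e => h1 (congrArg Subtype.val e)) with k | k
      · exact Or.inl ⟨_, k, rfl⟩
      · exact Or.inr ⟨_, k, rfl⟩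
  · rintro ⟨p1, p2, p3, p4⟩
    refine ⟨Subtype.val ⁻¹' P, ⟨⟨fun a ha b hb => p2.mul _ ha _ hb,
      fun x _ a ha => p2.cj _ (le x.2) _ ha⟩, p3, fun g hg => p4 g g.2 fun e => hg (Subtype.ext e)⟩, ?_⟩
    ext x
    exact ⟨by rintro ⟨u, hu, rfl⟩; exact hu, fun hx => ⟨⟨x, p1 x hx⟩, hx, rfl⟩⟩

theorem comap_σσ (G : Subgroup Au) : (G.comap σ).comap σ = G := by ext x; simp

theorem comm_σ {f : Au} (h : f ∈ ⁅G, G⁆) : σ f ∈ ⁅G.comap σ, G.comap σ⁆ := by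
  have : ⁅G, G⁆ ≤ (⁅G.comap σ, G.comap σ⁆ : Subgroup Au).comap σ := by
    rw [Subgroup.commutator_le]
    intro a ha b hb
    rw [Subgroup.mem_comap, map_commutatorElement]
    exact Subgroup.commutator_mem_commutator (by simpa using ha) (by simpa using hb)
  exact this h

theorem cs_σ {P : Set Au} (h : P ∈ CS G) : σ ⁻¹' P ∈ CS (G.comap σ) := by
  obtain ⟨p1, p2, p3, p4⟩ := h
  refine ⟨fun p hp => by simpa using comm_σ (p1 _ hp), ns_σ p2, by simpa using p3, fun g hg h1 => ?_⟩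
  have := comm_σ hg
  rw [comap_σσ] at this
  simpa using p4 _ this fun e => h1 (by rw [← σσ g, e, map_one])

theorem pre_σσ (P : Set Au) : σ ⁻¹' (σ ⁻¹' P) = P := by ext x; simp

/-- A system of leftmost germs with values in `M`. -/
structure Germ (G : Subgroup Au) (M : Type) [Group M] where
  LG : Au → ℝ → M → Prop
  ex : ∀ g ∈ G, g ≠ 1 → ∃ l γ, γ ≠ 1 ∧ LG g l γ
  fl : ∀ {g l γ}, LG g l γ → FL g l
  mul : ∀ {f g l γ δ}, LG f l γ → LG g l δ → LG (f * g) l (γ * δ)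
  inv : ∀ {g l γ}, LG g l γ → LG g⁻¹ l γ⁻¹
  one : ∀ {f g l l' γ}, LG f l γ → FL g l' → l < l' → LG g l 1
  ext : ∀ {g l}, LG g l 1 → ∃ e, l < e ∧ FL g e
  fr : ∀ {g l γ}, LG g l γ → γ ≠ 1 → ∃ᶠ s in 𝓝[>] l, g s ≠ s
  cj : ∀ {g l γ}, LG g l γ → ∀ x ∈ G, ∃ δ, LG (x * g * x⁻¹) (x l) (δ * γ * δ⁻¹)
  tr : ∀ {g l γ}, LG g l γ → ∃ x ∈ G, x l = 0
  re : ∀ γ, ∃ g ∈ G, LG g 0 γ

theorem not_fr {g : Au} {l e : ℝ} (h : ∃ᶠ s in 𝓝[>] l, g s ≠ s) (he : l < e) : ¬ FL g e := fun k =>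
  h (by filter_upwards [Ioo_mem_nhdsGT he] with s hs using not_not.2 (k s hs.2.le))

variable {M : Type} [Group M]

theorem Germ.uniq (Γ : Germ G M) {g : Au} {l l' : ℝ} {γ γ' : M} (h : Γ.LG g l γ) (h' : Γ.LG g l' γ')
    (k : γ ≠ 1) (k' : γ' ≠ 1) : γ = γ' := by
  rcases lt_trichotomy l l' with e | rfl | e
  · exact absurd (Γ.fl h') (not_fr (Γ.fr h k) e)
  · by_contra e
    have := Γ.fr (Γ.mul h (Γ.inv h')) (by rwa [ne_eq, mul_inv_eq_one])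
    simp at this
  · exact absurd (Γ.fl h) (not_fr (Γ.fr h' k') e)

theorem Germ.re' (Γ : Germ G M) (hG : Hyp K G) (γ : M) : ∃ g ∈ ⁅G, G⁆, Γ.LG g 0 γ := by
  obtain ⟨g, hg, h⟩ := Γ.re γ
  obtain ⟨z, hz, z1, -⟩ := hG.shrink' 0 0 (p := 1) (q := 2) (by norm_num)
  refine ⟨⁅g, z⁆, Subgroup.commutator_mem_commutator hg hz, ?_⟩
  have := Γ.mul h (Γ.one h (((Γ.fl h).inv.cj z).mono z1) one_pos)
  rw [mul_one] at this
  convert this using 1
  rw [commutatorElement_def]; group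

theorem cone_eq {P Q : Set M} (hP : P ∈ Cone M) (hQ : Q ∈ Cone M) (h : P ⊆ Q) : P = Q := by
  refine h.antisymm fun g hg => ?_
  rcases hP.2.2 g (fun e => hQ.2.1 (e ▸ hg)) with k | k
  · exact k
  · exact absurd (by simpa using hQ.1.mul _ hg _ (h k)) hQ.2.1

theorem Germ.count (Γ : Germ G M) (hG : Hyp K G) :
    {P | P ∈ CS G ∧ LD P}.encard = (Cone M).encard := by
  have le : ⁅G, G⁆ ≤ G := Subgroup.commutator_le_self G
  let Φ : Set M → Set Au := fun Q => {g | g ∈ ⁅G, G⁆ ∧ ∃ l γ, γ ∈ Q ∧ Γ.LG g l γ}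
  have inj : Set.InjOn Φ (Cone M) := fun Q hQ Q' hQ' e => cone_eq hQ hQ' fun γ hγ => by
    obtain ⟨g, hg, h⟩ := Γ.re' hG γ
    have : g ∈ Φ Q' := e ▸ ⟨hg, 0, γ, hγ, h⟩
    obtain ⟨-, l, γ', h1, h2⟩ := this
    rwa [Γ.uniq h h2 (fun e => hQ.2.1 (e ▸ hγ)) (fun e => hQ'.2.1 (e ▸ h1))]
  have mem : ∀ Q ∈ Cone M, Φ Q ∈ CS G ∧ LD (Φ Q) := by
    rintro Q ⟨q1, q2, q3⟩
    have ne : ∀ γ ∈ Q, γ ≠ 1 := fun γ h e => q2 (e ▸ h)
    have hmul : ∀ a ∈ Φ Q, ∀ b ∈ Φ Q, a * b ∈ Φ Q := by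
      rintro a ⟨ha, l, γ, a1, a2⟩ b ⟨hb, l', δ, b1, b2⟩
      refine ⟨mul_mem ha hb, ?_⟩
      rcases lt_trichotomy l l' with e | rfl | e
      · exact ⟨l, γ, a1, by simpa using Γ.mul a2 (Γ.one a2 (Γ.fl b2) e)⟩
      · exact ⟨l, _, q1.mul _ a1 _ b1, Γ.mul a2 b2⟩
      · exact ⟨l', δ, b1, by simpa using Γ.mul (Γ.one b2 (Γ.fl a2) e) b2⟩
    refine ⟨⟨fun p hp => hp.1, ⟨hmul, ?_⟩, ?_, fun g hg h1 => ?_⟩, ?_⟩
    · rintro x hx a ⟨ha, l, γ, a1, a2⟩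
      obtain ⟨δ, hδ⟩ := Γ.cj a2 x hx
      obtain ⟨x', hx', e⟩ := hG.realize hx (le ha)
      exact ⟨e ▸ mul_mem (mul_mem hx' ha) (inv_mem hx'), _, _, q1.cj δ trivial _ a1, hδ⟩
    · rintro ⟨-, l, γ, a1, a2⟩
      simpa using Γ.fr a2 (ne _ a1)
    · obtain ⟨l, γ, a1, a2⟩ := Γ.ex g (le hg) h1
      rcases q3 γ a1 with k | k
      · exact Or.inl ⟨hg, l, γ, k, a2⟩
      · exact Or.inr ⟨inv_mem hg, l, _, k, Γ.inv a2⟩
    · rintro f ⟨-, l1, γ, a1, a2⟩ h ⟨-, l2, δ, b1, b2⟩ l e fl fr he k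
      obtain rfl : l1 = l := by
        rcases lt_trichotomy l1 l with e | e | e
        · exact absurd fl (not_fr (Γ.fr a2 (ne _ a1)) e)
        · exact e
        · exact absurd (Γ.fl a2) (not_fr fr e)
      have := Γ.mul (Γ.inv a2) (Γ.one a2 k he)
      rw [inv_mul_cancel_left, mul_one] at this
      have e := Γ.uniq this b2 (by simpa using ne _ a1) (ne _ b1)
      exact q2 (by simpa [← e] using q1.mul _ a1 _ b1)
  rw [← inj.encard_image]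
  congr 1
  ext P
  constructor
  · rintro ⟨⟨p1, p2, p3, p4⟩, hL⟩
    let Q : Set M := {γ | γ ≠ 1 ∧ ∃ g ∈ P, Γ.LG g 0 γ}
    have hQ : Q ∈ Cone M := by
      refine ⟨⟨?_, ?_⟩, fun k => k.1 rfl, fun γ hγ => ?_⟩
      · rintro γ ⟨a0, f, a1, a2⟩ δ ⟨-, h, b1, b2⟩
        refine ⟨fun e => ?_, _, p2.mul _ a1 _ b1, Γ.mul a2 b2⟩
        have := Γ.mul a2 b2
        rw [e] at this
        obtain ⟨e, he, k⟩ := Γ.ext this
        exact hL f a1 h b1 0 e (Γ.fl a2) (Γ.fr a2 a0) he k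
      · rintro δ _ γ ⟨a0, f, a1, a2⟩
        obtain ⟨x, hx, h⟩ := Γ.re δ
        exact ⟨by simpa using a0, _, p2.cj x hx _ a1, Γ.mul (Γ.mul h a2) (Γ.inv h)⟩
      · obtain ⟨g, hg, h⟩ := Γ.re' hG γ
        rcases p4 g hg (fun e => by simpa [e] using Γ.fr h hγ) with k | k
        · exact Or.inl ⟨hγ, g, k, h⟩
        · exact Or.inr ⟨by simpa using hγ, _, k, Γ.inv h⟩
    refine ⟨Q, hQ, Set.Subset.antisymm (fun g hg => ?_) ?_⟩
    swap
    · intro g hg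
      obtain ⟨l, γ, a1, a2⟩ := Γ.ex g (le (p1 g hg)) fun e => p3 (e ▸ hg)
      obtain ⟨x, hx, e⟩ := Γ.tr a2
      obtain ⟨δ, hδ⟩ := Γ.cj a2 x hx
      rw [e] at hδ
      have := hQ.1.cj δ⁻¹ trivial _ ⟨by simpa using a1, _, p2.cj x hx _ hg, hδ⟩
      exact ⟨p1 g hg, l, γ, by simpa [mul_assoc] using this, a2⟩
    · rcases p4 g hg.1 (fun e => (mem Q hQ).1.2.2.1 (e ▸ hg)) with k | k
      · exact k
      · exfalso
        obtain ⟨l, γ, a1, a2⟩ := Γ.ex _ (le (p1 _ k)) fun e => p3 (e ▸ k)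
        obtain ⟨x, hx, e⟩ := Γ.tr a2
        obtain ⟨δ, hδ⟩ := Γ.cj a2 x hx
        rw [e] at hδ
        have := hQ.1.cj δ⁻¹ trivial _ ⟨by simpa using a1, _, p2.cj x hx _ k, hδ⟩
        have k' : g⁻¹ ∈ Φ Q := ⟨p1 _ k, l, γ, by simpa [mul_assoc] using this, a2⟩
        exact (mem Q hQ).1.2.2.1 (by simpa using (mem Q hQ).1.2.1.mul _ hg _ k')
  · rintro ⟨Q, hQ, rfl⟩
    exact mem Q hQ

theorem exfr {g : Au} {R : ℝ} (h : FL g R) (h1 : g ≠ 1) :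
    ∃ l, FL g l ∧ ∃ᶠ s in 𝓝[>] l, g s ≠ s := by
  let S : Set ℝ := {t | g t ≠ t}
  have ne : S.Nonempty := by
    by_contra h
    refine h1 (RelIso.ext fun t => ?_)
    by_contra k
    exact h ⟨t, k⟩
  have bd : BddBelow S := ⟨R, fun t ht => by
    by_contra k
    exact ht (h t (le_of_lt (not_le.1 k)))⟩
  have lt : ∀ t, t < sInf S → g t = t := fun t ht => by
    by_contra k
    exact absurd (csInf_le bd k) (not_le.2 ht)
  have fl : FL g (sInf S) := fun t ht => by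
    have : closure (Set.Iio (sInf S)) ⊆ {t | g t = t} :=
      closure_minimal lt (isClosed_eq g.continuous continuous_id)
    exact this (by rw [closure_Iio]; exact ht)
  refine ⟨_, fl, fun k => ?_⟩
  obtain ⟨u, hu, hs⟩ := mem_nhdsGT_iff_exists_Ioc_subset.1 k
  refine absurd (le_csInf ne fun t ht => ?_) (not_le.2 hu)
  by_contra e
  rcases le_or_gt t (sInf S) with e' | e'
  · exact ht (fl t e')
  · exact hs ⟨e', (not_le.1 e).le⟩ ht

theorem total (hG : Hyp K G) {M' : Type} [Group M'] [Nontrivial M] (Γ : Germ G M)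
    (Γ' : Germ (G.comap σ) M') :
    (Cone (⁅G, G⁆ : Subgroup Au)).encard = (Cone M).encard + (Cone M').encard := by
  have le : ⁅G, G⁆ ≤ G := Subgroup.commutator_le_self G
  rw [cone_cs hG, ← Γ.count hG, ← Γ'.count hG.σ]
  have inj : Function.Injective fun P : Set Au => σ ⁻¹' P := fun P Q e => by
    rw [← pre_σσ P, ← pre_σσ Q]
    exact congrArg _ e
  rw [← inj.injOn.encard_image (s := {P | P ∈ CS (G.comap σ) ∧ LD P}), ← Set.encard_union_eq]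
  · congr 1
    ext P
    constructor
    · intro hP
      rcases dich hG hP.2.1 hP.1 hP.2.2.1 with k | k
      · exact Or.inl ⟨hP, k⟩
      · exact Or.inr ⟨_, ⟨cs_σ hP, k⟩, pre_σσ P⟩
    · rintro (k | ⟨Q, k, rfl⟩)
      · exact k.1
      · have := cs_σ k.1
        rwa [comap_σσ] at this
  · rw [Set.disjoint_left]
    rintro P ⟨⟨p1, p2, p3, p4⟩, hL⟩ ⟨Q, ⟨-, hR⟩, rfl⟩
    obtain ⟨γ, hγ⟩ := exists_ne (1 : M)
    obtain ⟨g0, hg0, h0⟩ := Γ.re' hG γ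
    obtain ⟨g, hg⟩ : ∃ g, g ∈ σ ⁻¹' Q := by
      rcases p4 g0 hg0 (fun e => by simpa [e] using Γ.fr h0 hγ) with k | k <;> exact ⟨_, k⟩
    have g1 : g ≠ 1 := fun e => p3 (e ▸ hg)
    obtain ⟨R, r1, r2⟩ := hG.cs g (le (p1 g hg))
    obtain ⟨z, hz, z1, -⟩ := hG.shrink' (-R) 0 (p := R + 1) (q := R + 2) (by linarith)
    have hg' := p2.cj z hz g hg
    have fl := (r1.cj z).mono z1
    generalize z * g * z⁻¹ = g' at *
    have g1' : g' ≠ 1 := fun e => p3 (e ▸ hg')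
    obtain ⟨R', -, r2'⟩ := hG.cs g' (le (p1 g' hg'))
    obtain ⟨l, l1, l2⟩ := exfr r1 g1
    obtain ⟨l', l1', l2'⟩ := exfr r2'.σ (fun e => g1' (by rw [← σσ g', e, map_one]))
    have lR : l ≤ R := by
      by_contra k
      refine l2 ?_
      filter_upwards [self_mem_nhdsWithin] with s hs
      exact not_not.2 (r2 s (le_of_lt ((not_le.1 k).trans hs)))
    have lR' : l' ≤ -(R + 1) := by
      by_contra k
      refine l2' ?_
      filter_upwards [self_mem_nhdsWithin] with s hs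
      exact not_not.2 (fl.σ s (le_of_lt ((not_le.1 k).trans hs)))
    have ne : g⁻¹ * g' ≠ 1 := fun e => by
      rw [inv_mul_eq_one] at e
      subst e
      exact not_fr l2 (by linarith : l < R + 1) fl
    rcases p4 _ (mul_mem (inv_mem (p1 g hg)) (p1 g' hg')) ne with k | k
    · exact hL g hg _ k l (R + 1) l1 l2 (by linarith) (by simpa using fl)
    · refine hR (σ g') hg' _ k l' (-R) l1' l2' (by linarith) ?_
      rw [← map_mul]
      simpa using r2.σ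

end Pool.Agent.H.MP_7c6b96_al
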