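import Pool.Agent.H.MP_7c6b96_al.A

set_option autoImplicit false

namespace Pool.Agent.H.MP_7c6b96_al

open Polynomial
open Pool.Agent.H.MP_23b8d1_al

variable {K : Type} [Field K]

/-- The semidirect product of `K` with an infinite cyclic group acting by powers of `l`. -/
@[ext] structure MM (l : Kˣ) where
  a : K
  k : ℤ

variable {l : Kˣ}

instance : Mul (MM l) := ⟨fun x y => ⟨x.a + (l : K) ^ x.k * y.a, x.k + y.k⟩⟩
instance : One (MM l) := ⟨⟨0, 0⟩⟩
instance : Inv (MM l) := ⟨fun x => ⟨-((l : K) ^ (-x.k) * x.a), -x.k⟩⟩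

@[simp] theorem mul_a (x y : MM l) : (x * y).a = x.a + (l : K) ^ x.k * y.a := rfl
@[simp] theorem mul_k (x y : MM l) : (x * y).k = x.k + y.k := rfl
@[simp] theorem one_a : (1 : MM l).a = 0 := rfl
@[simp] theorem one_k : (1 : MM l).k = 0 := rfl
@[simp] theorem inv_a (x : MM l) : (x⁻¹).a = -((l : K) ^ (-x.k) * x.a) := rfl
@[simp] theorem inv_k (x : MM l) : (x⁻¹).k = -x.k := rfl

instance : Group (MM l) := Group.ofLeftAxioms
  (fun x y z => by
    ext
    · simp only [mul_a, mul_k, zpow_add₀ l.ne_zero]; ring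
    · simp [add_assoc])
  (fun x => by ext <;> simp)
  (fun x => by ext <;> simp)

theorem t_zpow (k : ℤ) : (⟨0, 1⟩ : MM l) ^ k = ⟨0, k⟩ := by
  induction k using Int.induction_on with
  | zero => rfl
  | succ n ih => rw [zpow_add_one, ih]; ext <;> simp
  | pred n ih => rw [zpow_sub_one, ih]; ext <;> simp [sub_eq_add_neg]

variable [Algebra ℚ K] {n : ℕ}

theorem prop_maps {f g : K →+ ℝ} (h : ∀ x, 0 < f x → 0 < g x) {y : K} (hy : 0 < f y) (x : K) :
    g x * f y = f x * g y := by
  have hg := h y hy
  have key : ∀ x, f x * g y ≤ g x * f y := fun x => by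
    by_contra k
    have : g x / g y < f x / f y := by rw [div_lt_div_iff₀ hg hy]; linarith
    obtain ⟨q, q1, q2⟩ := exists_rat_btwn this
    rw [div_lt_iff₀ hg] at q1
    rw [lt_div_iff₀ hy] at q2
    have := h (x - q • y) (by rw [map_sub, map_rat_smul, Rat.smul_def]; linarith)
    rw [map_sub, map_rat_smul, Rat.smul_def] at this
    linarith
  have := key (-x)
  simp only [map_neg] at this
  linarith [key x]

theorem arch (D : NF n K) (T : Set K) (t1 : ∀ a ∈ T, ∀ b ∈ T, a + b ∈ T) (t2 : (0 : K) ∉ T)
    (t3 : ∀ a, a ≠ 0 → a ∈ T ∨ -a ∈ T) (t4 : ∀ a ∈ T, (D.lam : K) * a ∈ T) :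
    ∃ (b : Bool) (σ : K →+* ℝ), ∀ a, 0 < sg b * σ a → a ∈ T := by
  have := D.fd
  have : CharZero K := algebraRat.charZero K
  let _ : LinearOrder K :=
    { le := fun x y => x = y ∨ y - x ∈ T
      le_refl := fun _ => Or.inl rfl
      le_trans := by
        rintro x y z (rfl | k) (rfl | k')
        · exact Or.inl rfl
        · exact Or.inr k'
        · exact Or.inr k
        · exact Or.inr (by simpa using t1 _ k' _ k)
      le_antisymm := by
        rintro x y (k | k) (k' | k')
        · exact k
        · exact k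
        · exact k'.symm
        · exact absurd (by simpa using t1 _ k _ k') t2
      le_total := fun x y => by
        by_cases k : x = y
        · exact Or.inl (Or.inl k)
        · rcases t3 (y - x) (sub_ne_zero.2 (Ne.symm k)) with k' | k'
          · exact Or.inl (Or.inr k')
          · exact Or.inr (Or.inr (by simpa using k'))
      toDecidableLE := Classical.decRel _ }
  have : IsOrderedAddMonoid K :=
    { add_le_add_left := by
        rintro a b (rfl | k) c
        · exact Or.inl rfl
        · exact Or.inr (by simpa using k) }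
  have pos : ∀ a : K, 0 < a ↔ a ∈ T := fun a => ⟨fun h => by
    rcases h.le with k | k
    · exact absurd k h.ne
    · simpa using k, fun h => lt_of_le_of_ne (Or.inr (by simpa using h)) fun e => t2 (e ▸ h)⟩
  have lm : ∀ a b : K, a ≤ b → (D.lam : K) * a ≤ D.lam * b := by
    rintro a b (rfl | k)
    · exact le_rfl
    · exact Or.inr (by rw [← mul_sub]; exact t4 _ k)
  let V : K → Submodule ℚ K := fun y =>
    { carrier := {x | ∃ m : ℕ, |x| ≤ m • |y|}
      zero_mem' := ⟨0, by simp⟩
      add_mem' := by
        rintro a b ⟨m, h⟩ ⟨m', h'⟩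
        exact ⟨m + m', (abs_add_le a b).trans (by rw [add_nsmul]; exact add_le_add h h')⟩
      smul_mem' := by
        rintro q x ⟨m, h⟩
        refine ⟨q.num.natAbs * m, ?_⟩
        have e : q.den • (q • x) = q.num • x := by
          rw [← Nat.cast_smul_eq_nsmul ℚ, smul_smul, ← Int.cast_smul_eq_zsmul ℚ, mul_comm,
            Rat.mul_den_eq_num]
        calc |q • x| ≤ q.den • |q • x| := le_self_nsmul (abs_nonneg _) q.den_ne_zero
          _ = |q.num • x| := by rw [← abs_nsmul, e]
          _ = q.num.natAbs • |x| := by rw [abs_zsmul, ← natCast_zsmul, Int.natCast_natAbs]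
          _ ≤ _ := by rw [mul_nsmul']; exact nsmul_le_nsmul_right h _ }
  have la : ∀ a : K, |(D.lam : K) * a| = D.lam * |a| := fun a => by
    rcases le_total 0 a with h | h
    · rw [abs_of_nonneg h, abs_of_nonneg (by simpa using lm _ _ h)]
    · rw [abs_of_nonpos h, abs_of_nonpos (by simpa using lm _ _ h), mul_neg]
  have inv : ∀ y, ∀ x ∈ V y, (D.lam : K) * x ∈ V y := fun y => by
    let e : K ≃ₗ[ℚ] K := LinearEquiv.ofBijective (LinearMap.mulLeft ℚ (D.lam : K))
      (Units.mulLeft_bijective D.lam)
    have e1 : (V y).map e.toLinearMap = V (D.lam * y) := by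
      ext x
      constructor
      · rintro ⟨z, ⟨m, h⟩, rfl⟩
        refine ⟨m, ?_⟩
        show |(D.lam : K) * z| ≤ _
        rw [la, la, ← mul_smul_comm]
        exact lm _ _ h
      · rintro ⟨m, h⟩
        obtain ⟨z, rfl⟩ := e.surjective x
        refine ⟨z, ⟨m, ?_⟩, rfl⟩
        by_contra k
        have h' : |(D.lam : K) * z| ≤ _ := h
        rw [la, la, ← mul_smul_comm] at h'
        exact k (le_of_eq (mul_left_cancel₀ D.lam.ne_zero (h'.antisymm (lm _ _ (not_le.1 k).le))))
    have e2 : Module.finrank ℚ (V (D.lam * y)) = Module.finrank ℚ (V y) := by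
      rw [← e1, LinearEquiv.finrank_map_eq]
    have e3 : V (D.lam * y) = V y := by
      rcases le_total |(D.lam : K) * y| |y| with h | h
      · exact Submodule.eq_of_le_of_finrank_eq
          (fun x ⟨m, k⟩ => ⟨m, k.trans (nsmul_le_nsmul_right h m)⟩) e2
      · refine (Submodule.eq_of_le_of_finrank_eq ?_ e2.symm).symm
        exact fun x ⟨m, k⟩ => ⟨m, k.trans (nsmul_le_nsmul_right h m)⟩
    intro x hx
    rw [← e3, ← e1]
    exact ⟨x, hx, rfl⟩
  have : Archimedean K := ⟨fun x y hy => by
    obtain ⟨p, hp⟩ := D.gen (x / y)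
    have : ∀ p : ℚ[X], aeval (D.lam : K) p * y ∈ V y := fun p => by
      induction p using Polynomial.induction_on with
      | C a => rw [aeval_C, ← Algebra.smul_def]; exact (V y).smul_mem a ⟨1, by simp⟩
      | add p q h1 h2 => rw [map_add, add_mul]; exact add_mem h1 h2
      | monomial m a h =>
        convert inv y _ h using 1
        simp only [map_mul, map_pow, aeval_X]
        ring
    obtain ⟨m, h⟩ := this p
    rw [hp, div_mul_cancel₀ _ hy.ne', abs_of_pos hy] at h
    exact ⟨m, (le_abs_self x).trans h⟩⟩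
  obtain ⟨f, hf⟩ := Archimedean.exists_orderAddMonoidHom_real_injective K
  have sm : StrictMono f := f.monotone'.strictMono_of_injective hf
  have fp : ∀ a, 0 < f a ↔ a ∈ T := fun a => by rw [← pos, ← map_zero f, sm.lt_iff_lt]
  have f1 : f 1 ≠ 0 := fun e => one_ne_zero (hf (e.trans (map_zero f).symm))
  obtain ⟨y, hy⟩ : ∃ y, 0 < f y := by
    rcases lt_or_gt_of_ne f1 with k | k
    · exact ⟨-1, by simpa using k⟩
    · exact ⟨1, k⟩
  have sc : ∀ x, f (D.lam * x) = f (D.lam * y) / f y * f x := fun x => by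
    have := prop_maps (f := f.toAddMonoidHom)
      (g := f.toAddMonoidHom.comp (AddMonoidHom.mulLeft (D.lam : K)))
      (fun x hx => (fp _).2 (t4 _ ((fp _).1 hx))) hy x
    have e : f (D.lam * x) * f y = f x * f (D.lam * y) := this
    field_simp
    linarith
  have sp : ∀ (p : ℚ[X]) (x : K), f (aeval (D.lam : K) p * x) =
      aeval (f (D.lam * y) / f y) p * f x := fun p => by
    induction p using Polynomial.induction_on with
    | C a =>
      intro x
      rw [aeval_C, aeval_C, ← Algebra.smul_def, ← Algebra.smul_def]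
      exact map_rat_smul f.toAddMonoidHom a x
    | add p q h1 h2 => intro x; rw [map_add, map_add, add_mul, map_add, h1, h2, add_mul]
    | monomial m a h =>
      intro x
      have := h (D.lam * x)
      rw [sc x] at this
      simp only [map_mul, map_pow, aeval_X] at this ⊢
      rw [pow_succ, pow_succ]
      convert this using 1
      · congr 1; ring
      · ring
  have ml : ∀ u x : K, f (u * x) * f 1 = f u * f x := fun u x => by
    obtain ⟨p, rfl⟩ := D.gen u
    have := sp p 1
    rw [mul_one] at this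
    rw [sp, this]; ring
  refine ⟨decide (0 < f 1), ⟨⟨⟨fun x => f x / f 1, div_self f1⟩, fun u x => ?_⟩, by simp,
    fun u x => by simp [add_div]⟩, fun a ha => (fp a).1 ?_⟩
  · have := ml u x
    field_simp
    linarith
  · have ha' : 0 < sg (decide (0 < f 1)) * (f a / f 1) := ha
    rcases lt_or_gt_of_ne f1 with k | k
    · simp only [sg, not_lt.2 k.le, decide_false] at ha'
      have : f a / f 1 < 0 := by simpa using ha'
      exact (div_neg_iff.1 this).elim (fun h => h.1) fun h => absurd h.2 (not_lt.2 k.le)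
    · simp only [sg, k, decide_true, if_true, one_mul] at ha'
      exact (div_pos_iff_of_pos_right k).1 ha'

theorem NF.ex (D : NF n K) (hn : 0 < n) : Nonempty (K →+* ℝ) := by
  obtain ⟨σ, -⟩ : (Set.univ : Set (K →+* ℝ)).Nonempty :=
    Set.encard_pos.1 (by rw [D.card]; exact_mod_cast hn)
  exact ⟨σ⟩

theorem cone_MM (D : NF n K) : (Cone (MM D.lam)).encard = (4 * n : ℕ) := by
  let Φ : Bool × Bool × (K →+* ℝ) → Set (MM D.lam) := fun e =>
    {g | 0 < sg e.1 * (g.k : ℝ) ∨ g.k = 0 ∧ 0 < sg e.2.1 * e.2.2 g.a}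
  have zp : ∀ (σ : K →+* ℝ) (k : ℤ), 0 < σ ((D.lam : K) ^ k) := fun σ k => by
    rw [map_zpow₀]; exact zpow_pos (by linarith [D.pos σ]) k
  have mem : ∀ e, Φ e ∈ Cone (MM D.lam) := by
    rintro ⟨b, c, σ⟩
    refine ⟨⟨?_, ?_⟩, by simp [Φ], fun g hg => ?_⟩
    · rintro x (hx | ⟨hx, hx'⟩) y (hy | ⟨hy, hy'⟩)
      · left; simp only [mul_k]; push_cast; rw [mul_add]; exact add_pos hx hy
      · left; simpa [hy] using hx
      · left; simpa [hx] using hy
      · right; exact ⟨by simp [hx, hy], by simpa [hx, mul_add] using add_pos hx' hy'⟩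
    · rintro x - y (hy | ⟨hy, hy'⟩)
      · left; simpa using hy
      · refine Or.inr ⟨by simp [hy], ?_⟩
        have : (x * y * x⁻¹).a = (D.lam : K) ^ x.k * y.a := by
          simp [hy, mul_inv_cancel_left₀ (zpow_ne_zero x.k D.lam.ne_zero)]
        rw [this, map_mul, mul_left_comm]
        exact mul_pos (zp σ _) hy'
    · by_cases k : g.k = 0
      · have : σ g.a ≠ 0 := fun e => hg (MM.ext (by simpa using e) k)
        rcases sg_tri c this with h | h
        · exact Or.inl (Or.inr ⟨k, h⟩)
        · exact Or.inr (Or.inr ⟨by simp [k], by simpa [k] using h⟩)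
      · rcases sg_tri b (x := g.k) (by exact_mod_cast k) with h | h
        · exact Or.inl (Or.inl h)
        · exact Or.inr (Or.inl (by simpa using h))
  have inj : Function.Injective Φ := by
    rintro ⟨b, c, σ⟩ ⟨b', c', σ'⟩ e
    have h1 : ∀ k : ℤ, 0 < sg b * k → 0 < sg b' * k := fun k hk => by
      have : (⟨0, k⟩ : MM D.lam) ∈ Φ (b', c', σ') := e ▸ Or.inl hk
      simpa [Φ] using this
    have h2 : ∀ a, 0 < sg c * σ a → 0 < sg c' * σ' a := fun a ha => by
      have : (⟨a, 0⟩ : MM D.lam) ∈ Φ (b', c', σ') := e ▸ Or.inr ⟨rfl, ha⟩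
      simpa [Φ] using this
    obtain rfl : b = b' := by
      rcases sg_tri b (x := 1) one_ne_zero with h | h
      · exact sg_eq h (by simpa using h1 1 (by simpa using h))
      · exact sg_eq h (by simpa using h1 (-1) (by simpa using h))
    obtain ⟨y, y1, y2⟩ : ∃ y : ℤ, 0 < sg c * y ∧ 0 < sg c' * y := by
      rcases sg_tri c (x := 1) one_ne_zero with h | h
      · exact ⟨1, by simpa using h, by simpa using h2 1 (by simpa using h)⟩
      · exact ⟨-1, by simpa using h, by simpa using h2 (-1) (by simpa using h)⟩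
    obtain rfl : c = c' := sg_eq y1 y2
    obtain rfl : σ = σ' := RingHom.ext fun x => by
      have := prop_maps (f := (AddMonoidHom.mulLeft (sg c)).comp σ.toAddMonoidHom)
        (g := (AddMonoidHom.mulLeft (sg c)).comp σ'.toAddMonoidHom) h2 (y := (y : K))
        (by simpa using y1) x
      have e : sg c * σ' x * (sg c * σ y) = sg c * σ x * (sg c * σ' y) := this
      rw [map_intCast, map_intCast] at e
      have := mul_right_cancel₀ y1.ne' e
      exact (mul_left_cancel₀ (left_ne_zero_of_mul y1.ne') this).symm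
    rfl
  have : Cone (MM D.lam) = Φ '' Set.univ := by
    ext Q
    constructor
    · intro hQ
      obtain ⟨b, hb⟩ := cone_zpow hQ (t := ⟨0, 1⟩) (fun e => one_ne_zero (congrArg MM.k e))
      obtain ⟨c, σ, hc⟩ := arch D {a | (⟨a, 0⟩ : MM D.lam) ∈ Q}
        (fun a ha a' ha' => by
          have := hQ.1.mul _ ha _ ha'
          convert this using 0
          exact Iff.of_eq (congrArg (· ∈ Q) (MM.ext (by simp) (by simp)))) hQ.2.1
        (fun a ha => by
          have := hQ.2.2 ⟨a, 0⟩ fun e => ha (congrArg MM.a e)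
          rwa [show (⟨a, 0⟩ : MM D.lam)⁻¹ = ⟨-a, 0⟩ from MM.ext (by simp) (by simp)] at this)
        (fun a ha => by
          have := hQ.1.cj ⟨0, 1⟩ trivial _ ha
          convert this using 0
          exact Iff.of_eq (congrArg (· ∈ Q) (MM.ext (by simp) (by simp))))
      refine ⟨(b, c, σ), trivial, cone_eq (mem _) hQ ?_⟩
      rintro ⟨a, k⟩ (h | ⟨h, h'⟩)
      · have k0 : k ≠ 0 := fun e => by simp [e] at h
        have ne : 1 - (D.lam : K) ^ k ≠ 0 := fun e => by
          have := congrArg σ (sub_eq_zero.1 e)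
          rw [map_one, map_zpow₀, eq_comm, zpow_eq_one_iff_right₀ (by linarith [D.pos σ])
            (D.pos σ).ne'] at this
          exact k0 this
        have := hQ.1.cj ⟨a / (1 - (D.lam : K) ^ k), 0⟩ trivial _ (hb k h)
        rw [t_zpow] at this
        convert this using 1
        refine MM.ext ?_ (by simp)
        simp
        field_simp
        ring
      · obtain rfl : k = 0 := h
        exact hc a h'
    · rintro ⟨e, -, rfl⟩
      exact mem e
  have c := D.card
  rw [Set.encard_univ] at c
  rw [this, inj.injOn.encard_image, Set.encard_univ, ENat.card_prod, ENat.card_prod, c,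
    ENat.card_eq_coe_fintype_card, Fintype.card_bool]
  push_cast
  ring

end Pool.Agent.H.MP_7c6b96_al
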