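import Pool.Agent.H.MP_7c6b96_al.C

set_option autoImplicit false

namespace Pool.Agent.H.MP_7c6b96_al

open Filter Topology
open Pool.Agent.H.MP_23b8d1_al
open Pool.Agent.H.MP_ab86ea_al (glue glue_le glue_ge)

/-- A field with a real embedding and a unit sent above `1`. -/
structure Emb (K : Type) [Field K] where
  ι : K →+* ℝ
  l : Kˣ
  gt : 1 < ι l

variable {K : Type} [Field K] (E : Emb K)

namespace Emb

def Λ : ℝ := E.ι E.l

theorem Λ1 : 1 < E.Λ := E.gt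
theorem Λ0 : 0 < E.Λ := one_pos.trans E.gt
theorem zp (k : ℤ) : 0 < E.Λ ^ k := zpow_pos E.Λ0 k

/-- The affine action on the line. -/
noncomputable def af : MM E.l →* Au := MonoidHom.mk'
  (fun γ => OrderIso.addRight (E.ι γ.a) * OrderIso.mulLeft₀ (E.Λ ^ γ.k) (E.zp _))
  fun γ δ => RelIso.ext fun x => by
    show E.Λ ^ (γ.k + δ.k) * x + E.ι (γ.a + (E.l : K) ^ γ.k * δ.a) =
      E.Λ ^ γ.k * (E.Λ ^ δ.k * x + E.ι δ.a) + E.ι γ.a
    rw [zpow_add₀ E.Λ0.ne', map_add, map_mul, map_zpow₀, Λ]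
    ring

theorem af_apply (γ : MM E.l) (x : ℝ) : E.af γ x = E.Λ ^ γ.k * x + E.ι γ.a := rfl

theorem af_mul (γ δ : MM E.l) (x : ℝ) : E.af (γ * δ) x = E.af γ (E.af δ x) := by rw [map_mul]; rfl

theorem af_inv (γ : MM E.l) (x : ℝ) : E.af γ (E.af γ⁻¹ x) = x := by
  rw [← af_mul, mul_inv_cancel, map_one]; rfl

theorem af_inv' (γ : MM E.l) (x : ℝ) : E.af γ⁻¹ (E.af γ x) = x := by
  rw [← af_mul, inv_mul_cancel, map_one]; rfl

theorem af_mem (γ : MM E.l) {x : ℝ} (h : x ∈ Set.range E.ι) : E.af γ x ∈ Set.range E.ι := by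
  obtain ⟨a, rfl⟩ := h
  exact ⟨(E.l : K) ^ γ.k * a + γ.a, by rw [map_add, map_mul, map_zpow₀]; rfl⟩

theorem af_nmem (γ : MM E.l) {x : ℝ} (h : x ∉ Set.range E.ι) : E.af γ x ∉ Set.range E.ι :=
  fun k => h (by simpa [af_inv'] using E.af_mem γ⁻¹ k)

theorem af_two {γ : MM E.l} {s t : ℝ} (h : s ≠ t) (h1 : E.af γ s = s) (h2 : E.af γ t = t) :
    γ = 1 := by
  rw [af_apply] at h1 h2
  have : (E.Λ ^ γ.k - 1) * (s - t) = 0 := by linarith
  have k : E.Λ ^ γ.k = 1 := by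
    rcases mul_eq_zero.1 this with e | e
    · linarith
    · exact absurd (sub_eq_zero.1 e) h
  rw [k] at h1
  exact MM.ext (E.ι.injective (by simpa using h1)) ((zpow_eq_one_iff_right₀ E.Λ0.le E.Λ1.ne').1 k)

theorem af_bot (γ : MM E.l) : Tendsto (E.af γ) atBot atBot := (E.af γ).tendsto_atBot

/-- The pieces of the chart at a special point. -/
def el (j : ℕ) : MM E.l := ⟨(E.l : K) ^ (-j : ℤ) + (E.l : K) ^ (-(j + 1) : ℤ), -(2 * j + 1)⟩

theorem el_apply (j : ℕ) (s : ℝ) :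
    E.af (E.el j) s = (E.Λ ^ j)⁻¹ + (E.Λ ^ j * E.Λ ^ (j + 1))⁻¹ * (s + E.Λ ^ j) := by
  have := E.Λ0
  have e : (-(2 * j + 1) : ℤ) = -((j + (j + 1) : ℕ) : ℤ) := by push_cast; ring
  have e' : (-(j + 1) : ℤ) = -((j + 1 : ℕ) : ℤ) := by push_cast; ring
  rw [af_apply, el, map_add, map_zpow₀, map_zpow₀]
  simp only [e, e', zpow_neg, zpow_natCast]
  rw [pow_add]
  show _ + ((E.Λ ^ j)⁻¹ + (E.Λ ^ (j + 1))⁻¹) = _
  field_simp
  ring

theorem el_lo (j : ℕ) : E.af (E.el j) (-E.Λ ^ (j + 1)) = (E.Λ ^ (j + 1))⁻¹ := by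
  have := E.Λ0
  rw [el_apply]; field_simp; ring

theorem el_hi (j : ℕ) : E.af (E.el j) (-E.Λ ^ j) = (E.Λ ^ j)⁻¹ := by
  rw [el_apply]; simp

theorem exj (s : ℝ) : ∃ j : ℕ, -E.Λ ^ (j + 1) ≤ s := by
  obtain ⟨j, hj⟩ := pow_unbounded_of_one_lt (-s) E.Λ1
  have : E.Λ ^ j ≤ E.Λ ^ (j + 1) := pow_le_pow_right₀ E.Λ1.le j.le_succ
  exact ⟨j, by linarith⟩

open Classical in
noncomputable def ψ (s : ℝ) : ℝ := E.af (E.el (Nat.find (E.exj s))) s

theorem idx (s : ℝ) : ∃ j : ℕ, -E.Λ ^ (j + 1) ≤ s ∧ (j = 0 ∨ s < -E.Λ ^ j) ∧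
    (∀ i : ℕ, -E.Λ ^ (i + 1) ≤ s → j ≤ i) ∧ E.ψ s = E.af (E.el j) s := by
  classical
  refine ⟨Nat.find (E.exj s), Nat.find_spec (E.exj s), ?_, fun i hi => Nat.find_min' _ hi, rfl⟩
  rcases h : Nat.find (E.exj s) with _ | j
  · exact Or.inl rfl
  · exact Or.inr (not_le.1 (Nat.find_min (E.exj s) (by omega)))

theorem seg {j : ℕ} {s : ℝ} (h1 : -E.Λ ^ (j + 1) ≤ s) (h2 : j = 0 ∨ s ≤ -E.Λ ^ j) :
    E.ψ s = E.af (E.el j) s := by
  obtain ⟨i, i1, -, i3, i4⟩ := E.idx s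
  rcases (i3 j h1).eq_or_lt with rfl | h
  · exact i4
  · have h3 := h2.resolve_left (by omega)
    have : j ≤ i + 1 := (pow_le_pow_iff_right₀ E.Λ1).1 (by linarith)
    obtain rfl : j = i + 1 := by omega
    rw [i4, le_antisymm h3 i1, el_lo, el_hi]

theorem ψ_lo {j : ℕ} {s : ℝ} (h : -E.Λ ^ (j + 1) ≤ s) : (E.Λ ^ (j + 1))⁻¹ ≤ E.ψ s := by
  obtain ⟨i, i1, -, i3, i4⟩ := E.idx s
  rw [i4]
  refine le_trans ?_ ((E.el_lo i).ge.trans ((E.af _).monotone i1))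
  exact inv_anti₀ (pow_pos E.Λ0 _) (pow_le_pow_right₀ E.Λ1.le (by have := i3 j h; omega))

theorem ψ_pos (s : ℝ) : 0 < E.ψ s := by
  obtain ⟨j, hj⟩ := E.exj s
  exact (inv_pos.2 (pow_pos E.Λ0 _)).trans_le (E.ψ_lo hj)

theorem ψ_sm : StrictMono E.ψ := fun s t h => by
  obtain ⟨i, i1, i2, -, i4⟩ := E.idx s
  by_cases k : i = 0 ∨ t ≤ -E.Λ ^ i
  · rw [i4, E.seg (i1.trans h.le) k]
    exact (E.af _).strictMono h
  · rw [not_or, not_le] at k
    obtain ⟨j, rfl⟩ : ∃ j, i = j + 1 := ⟨i - 1, by omega⟩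
    refine lt_of_lt_of_le ?_ (E.ψ_lo k.2.le)
    rw [i4, ← el_hi]
    exact (E.af _).strictMono (i2.resolve_left k.1)

theorem ψ_surj {x : ℝ} (hx : 0 < x) : ∃ s, E.ψ s = x := by
  classical
  have ex : ∃ j : ℕ, (E.Λ ^ (j + 1))⁻¹ ≤ x := by
    obtain ⟨j, hj⟩ := E.exj (-x⁻¹)
    exact ⟨j, inv_le_of_inv_le₀ hx (by linarith)⟩
  refine ⟨E.af (E.el (Nat.find ex))⁻¹ x, (E.seg (j := Nat.find ex) ?_ ?_).trans (E.af_inv _ _)⟩
  · rw [← (E.af (E.el (Nat.find ex))).le_iff_le, af_inv, el_lo]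
    exact Nat.find_spec ex
  · rcases h : Nat.find ex with _ | j
    · exact Or.inl rfl
    · right
      rw [← (E.af (E.el (j + 1))).le_iff_le, af_inv, el_hi]
      exact (not_le.1 (Nat.find_min ex (by omega))).le

theorem ψ_scale {s : ℝ} (h : s ≤ -1) : E.ψ (E.Λ * s) = E.Λ⁻¹ * E.ψ s := by
  obtain ⟨i, i1, i2, -, i4⟩ := E.idx s
  have := E.Λ0
  have i5 : s ≤ -E.Λ ^ i := by
    rcases i2 with rfl | k
    · simpa using h
    · exact k.le
  rw [E.seg (j := i + 1) (by rw [pow_succ']; nlinarith) (Or.inr (by rw [pow_succ']; nlinarith)),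
    i4, el_apply, el_apply]
  field_simp
  ring

theorem ψ_zpow (k : ℤ) : ∀ᶠ s in atBot, E.ψ (E.Λ ^ k * s) = E.Λ ^ (-k) * E.ψ s := by
  have := E.Λ0
  have ev : ∀ k : ℤ, ∀ᶠ s in atBot, E.Λ ^ k * s ≤ -1 := fun k =>
    (tendsto_id.const_mul_atBot (E.zp k)).eventually (eventually_le_atBot _)
  induction k using Int.induction_on with
  | zero => simp
  | succ n ih =>
    filter_upwards [ih, ev n] with s h1 h2
    rw [zpow_add_one₀ this.ne', mul_comm _ E.Λ, mul_assoc, E.ψ_scale h2, h1, neg_add,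
      zpow_add₀ this.ne', zpow_neg_one]
    ring
  | pred n ih =>
    filter_upwards [ih, ev (-n - 1)] with s h1 h2
    have e := E.ψ_scale h2
    rw [← mul_assoc, mul_comm E.Λ, ← zpow_add_one₀ this.ne', sub_add_cancel, h1] at e
    rw [show -(-(n : ℤ) - 1) = - -(n : ℤ) + 1 by ring, zpow_add_one₀ this.ne', mul_right_comm, e]
    field_simp

theorem to_nhds (p : ℝ) : Tendsto (fun s => p + E.ψ s) atBot (𝓝[>] p) := by
  refine tendsto_nhdsWithin_iff.2 ⟨tendsto_order.2 ⟨fun a ha => Eventually.of_forall fun s => ?_,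
    fun a ha => ?_⟩, Eventually.of_forall fun s => by simpa using E.ψ_pos s⟩
  · linarith [E.ψ_pos s]
  · obtain ⟨t, ht⟩ := E.ψ_surj (sub_pos.2 ha)
    filter_upwards [eventually_lt_atBot t] with s hs
    linarith [E.ψ_sm hs]

theorem of_bot {p : ℝ} {Q : ℝ → Prop} (h : ∀ᶠ s in atBot, Q (p + E.ψ s)) : ∀ᶠ x in 𝓝[>] p, Q x := by
  obtain ⟨t, ht⟩ := eventually_atBot.1 h
  filter_upwards [Ioo_mem_nhdsGT (show p < p + E.ψ t by linarith [E.ψ_pos t])] with x hx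
  obtain ⟨s, hs⟩ := E.ψ_surj (sub_pos.2 hx.1)
  have := ht s (E.ψ_sm.le_iff_le.1 (by linarith [hx.2]))
  rwa [hs, add_sub_cancel] at this

/-- Piecewise affine at `p`. -/
def PLat (f : ℝ → ℝ) (p : ℝ) : Prop := ∃ γ δ, (∀ᶠ s in 𝓝[≤] p, f s = E.af γ s) ∧
  (∀ᶠ s in 𝓝[≥] p, f s = E.af δ s) ∧ (p ∉ Set.range E.ι → γ = δ)

theorem ψ_pl (s : ℝ) : E.PLat E.ψ s := by
  obtain ⟨i, i1, i2, -, -⟩ := E.idx s
  have r : ∀ᶠ t in 𝓝 s, i = 0 ∨ t ≤ -E.Λ ^ i := by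
    rcases i2 with k | k
    · exact Eventually.of_forall fun _ => Or.inl k
    · filter_upwards [Iio_mem_nhds k] with t ht using Or.inr (le_of_lt ht)
  have r' : ∀ᶠ t in 𝓝[≥] s, E.ψ t = E.af (E.el i) t := by
    filter_upwards [nhdsWithin_le_nhds r, self_mem_nhdsWithin] with t h1 h2
    exact E.seg (i1.trans h2) h1
  rcases i1.eq_or_lt with k | k
  · refine ⟨E.el (i + 1), E.el i, ?_, r', fun h => absurd ⟨-(E.l : K) ^ (i + 1), ?_⟩ h⟩
    · have : -E.Λ ^ (i + 1 + 1) < s := by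
        rw [← k, neg_lt_neg_iff]
        exact pow_lt_pow_right₀ E.Λ1 (by omega)
      filter_upwards [nhdsWithin_le_nhds (Ioi_mem_nhds this), self_mem_nhdsWithin] with t h1 h2
      exact E.seg (le_of_lt h1) (Or.inr (k ▸ h2))
    · rw [← k, map_neg, map_pow]; rfl
  · refine ⟨E.el i, E.el i, ?_, r', fun _ => rfl⟩
    filter_upwards [nhdsWithin_le_nhds r, nhdsWithin_le_nhds (Ioi_mem_nhds k)] with t h1 h2
    exact E.seg (le_of_lt h2) h1

/-- The right germ of `f` at `p`, read in the chart. -/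
def RGm (f : ℝ → ℝ) (p : ℝ) (γ : MM E.l) : Prop :=
  ∀ᶠ s in atBot, f (p + E.ψ s) = f p + E.ψ (E.af γ s)

variable {E}

theorem RGm.mul {f g : Au} {p : ℝ} {γ δ : MM E.l} (hf : E.RGm f (g p) γ) (hg : E.RGm g p δ) :
    E.RGm (f * g : Au) p (γ * δ) := by
  filter_upwards [(E.af_bot δ).eventually hf, hg] with s h1 h2
  show f (g _) = f (g p) + _
  rw [h2, h1, af_mul]

theorem RGm.inv {f : Au} {p : ℝ} {γ : MM E.l} (hf : E.RGm f p γ) :
    E.RGm (f⁻¹ : Au) (f p) γ⁻¹ := by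
  filter_upwards [(E.af_bot γ⁻¹).eventually hf] with s h1
  rw [af_inv] at h1
  rw [← h1, RelIso.inv_apply_self, RelIso.inv_apply_self]

variable (E)

def Loc (f : ℝ → ℝ) (p : ℝ) : Prop := (∃ γ, ∀ᶠ s in 𝓝[≤] p, f s = E.af γ s) ∧
  (p ∉ Set.range E.ι → ∃ γ, ∀ᶠ s in 𝓝 p, f s = E.af γ s) ∧ (p ∈ Set.range E.ι → ∃ γ, E.RGm f p γ)

variable {E}

theorem both {p : ℝ} {Q : ℝ → Prop} (h1 : ∀ᶠ s in 𝓝[≤] p, Q s) (h2 : ∀ᶠ s in 𝓝[≥] p, Q s) :
    ∀ᶠ s in 𝓝 p, Q s := by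
  rw [← nhdsLE_sup_nhdsGE]
  exact eventually_sup.2 ⟨h1, h2⟩

theorem PLat.loc {f : ℝ → ℝ} {p : ℝ} (h : E.PLat f p) : E.Loc f p := by
  obtain ⟨γ, δ, h1, h2, h3⟩ := h
  refine ⟨⟨γ, h1⟩, fun k => ⟨γ, both h1 (h3 k ▸ h2)⟩, fun _ => ⟨⟨0, -δ.k⟩, ?_⟩⟩
  have e : f p = E.af δ p := h2.self_of_nhdsWithin Set.self_mem_Ici
  filter_upwards [((E.to_nhds p).mono_right (nhdsWithin_mono _ Set.Ioi_subset_Ici_self)).eventually h2,
    E.ψ_zpow (-δ.k)] with s k1 k2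
  rw [k1, e, af_apply, af_apply, af_apply, map_zero, add_zero, k2, neg_neg]
  ring

theorem loc_of {f u v : ℝ → ℝ} {p : ℝ} (h1 : ∀ᶠ s in 𝓝[≤] p, f s = u s)
    (h2 : ∀ᶠ s in 𝓝[≥] p, f s = v s) (hu : E.Loc u p) (hv : E.Loc v p)
    (h : p ∈ Set.range E.ι ∨ u = v) : E.Loc f p := by
  refine ⟨?_, fun k => ?_, fun k => ?_⟩
  · obtain ⟨γ, hγ⟩ := hu.1
    exact ⟨γ, by filter_upwards [h1, hγ] with s a b using a.trans b⟩
  · obtain rfl := h.resolve_left k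
    obtain ⟨γ, hγ⟩ := hu.2.1 k
    exact ⟨γ, by filter_upwards [both h1 h2, hγ] with s a b using a.trans b⟩
  · obtain ⟨γ, hγ⟩ := hv.2.2 k
    refine ⟨γ, ?_⟩
    filter_upwards [((E.to_nhds p).mono_right (nhdsWithin_mono _ Set.Ioi_subset_Ici_self)).eventually h2, hγ] with s a b
    rw [a, b, h2.self_of_nhdsWithin Set.self_mem_Ici]

theorem tendL (g : Au) (t : ℝ) : Tendsto g (𝓝[≤] t) (𝓝[≤] (g t)) :=
  tendsto_nhdsWithin_iff.2 ⟨(g.continuous.tendsto t).mono_left nhdsWithin_le_nhds,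
    eventually_nhdsWithin_of_forall fun _ hs => g.monotone hs⟩

theorem tendR (g : Au) (t : ℝ) : Tendsto g (𝓝[≥] t) (𝓝[≥] (g t)) :=
  tendsto_nhdsWithin_iff.2 ⟨(g.continuous.tendsto t).mono_left nhdsWithin_le_nhds,
    eventually_nhdsWithin_of_forall fun _ hs => g.monotone hs⟩

theorem Loc.val {f : ℝ → ℝ} {p : ℝ} (h : E.Loc f p) : ∃ γ, f p = E.af γ p :=
  h.1.imp fun _ k => k.self_of_nhdsWithin Set.self_mem_Iic

theorem Loc.mem {f : ℝ → ℝ} {p : ℝ} (h : E.Loc f p) (k : p ∈ Set.range E.ι) :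
    f p ∈ Set.range E.ι := by
  obtain ⟨γ, e⟩ := h.val
  exact e ▸ E.af_mem γ k

theorem Loc.nmem {f : ℝ → ℝ} {p : ℝ} (h : E.Loc f p) (k : p ∉ Set.range E.ι) :
    f p ∉ Set.range E.ι := by
  obtain ⟨γ, e⟩ := h.val
  exact e ▸ E.af_nmem γ k

theorem af_loc (γ : MM E.l) (p : ℝ) : E.Loc (E.af γ) p :=
  PLat.loc ⟨γ, γ, Eventually.of_forall fun _ => rfl, Eventually.of_forall fun _ => rfl, fun _ => rfl⟩

variable (E)

/-- Homeomorphisms with admissible germs everywhere. -/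
def Sh : Subgroup Au where
  carrier := {f | ∀ p, E.Loc f p}
  one_mem' := fun p => by have := af_loc (E := E) 1 p; rwa [map_one] at this
  mul_mem' := fun {f g} hf hg p => by
    refine ⟨?_, fun k => ?_, fun k => ?_⟩
    · obtain ⟨γ, h1⟩ := (hf (g p)).1
      obtain ⟨δ, h2⟩ := (hg p).1
      refine ⟨γ * δ, ?_⟩
      filter_upwards [(tendL g p).eventually h1, h2] with s a b
      rw [af_mul, ← b, ← a]; rfl
    · obtain ⟨γ, h1⟩ := (hf (g p)).2.1 ((hg p).nmem k)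
      obtain ⟨δ, h2⟩ := (hg p).2.1 k
      refine ⟨γ * δ, ?_⟩
      filter_upwards [(g.continuous.tendsto p).eventually h1, h2] with s a b
      rw [af_mul, ← b, ← a]; rfl
    · obtain ⟨γ, h1⟩ := (hf (g p)).2.2 ((hg p).mem k)
      obtain ⟨δ, h2⟩ := (hg p).2.2 k
      exact ⟨_, h1.mul h2⟩
  inv_mem' := fun {f} hf p => by
    obtain ⟨q, rfl⟩ := f.surjective p
    have e : (f⁻¹ : Au) (f q) = q := RelIso.inv_apply_self f q
    refine ⟨?_, fun k => ?_, fun k => ?_⟩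
    · obtain ⟨γ, h1⟩ := (hf q).1
      refine ⟨γ⁻¹, ?_⟩
      have := tendL f⁻¹ (f q)
      rw [e] at this
      filter_upwards [this.eventually h1] with s a
      rw [RelIso.apply_inv_self] at a
      conv_rhs => rw [a, af_inv']
    · obtain ⟨γ, h1⟩ := (hf q).2.1 fun k' => k ((hf q).mem k')
      refine ⟨γ⁻¹, ?_⟩
      have := (f⁻¹ : Au).continuous.tendsto (f q)
      rw [e] at this
      filter_upwards [this.eventually h1] with s a
      rw [RelIso.apply_inv_self] at a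
      conv_rhs => rw [a, af_inv']
    · obtain ⟨γ, h1⟩ := (hf q).2.2 (by_contra fun k' => (hf q).nmem k' k)
      exact ⟨_, h1.inv⟩

variable {E}

theorem glue_mem {u v : Au} (hu : u ∈ E.Sh) (hv : v ∈ E.Sh) {c : ℝ} (hc : c ∈ Set.range E.ι)
    (e : u c = v c) : glue u v c e ∈ E.Sh := fun p => by
  rcases lt_trichotomy p c with k | rfl | k
  · have : ∀ᶠ s in 𝓝 p, glue u v c e s = u s := by
      filter_upwards [Iio_mem_nhds k] with s hs using glue_le e (le_of_lt hs)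
    exact loc_of (nhdsWithin_le_nhds this) (nhdsWithin_le_nhds this) (hu p) (hu p) (Or.inr rfl)
  · exact loc_of (eventually_nhdsWithin_of_forall fun s hs => glue_le e hs)
      (eventually_nhdsWithin_of_forall fun s hs => glue_ge e hs) (hu p) (hv p) (Or.inl hc)
  · have : ∀ᶠ s in 𝓝 p, glue u v c e s = v s := by
      filter_upwards [Ioi_mem_nhds k] with s hs using glue_ge e (le_of_lt hs)
    exact loc_of (nhdsWithin_le_nhds this) (nhdsWithin_le_nhds this) (hv p) (hv p) (Or.inr rfl)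

theorem segmap {a b a' b' : ℝ} (ha : a ∈ Set.range E.ι) (hb : b ∈ Set.range E.ι)
    (ha' : a' ∈ Set.range E.ι) (hb' : b' ∈ Set.range E.ι) (h : a < b) (h' : a' < b') :
    ∃ w ∈ E.Sh, w a = a' ∧ w b = b' := by
  obtain ⟨k, k1, k2⟩ := exists_mem_Ico_zpow (div_pos (sub_pos.2 h') (sub_pos.2 h)) E.Λ1
  rw [le_div_iff₀ (sub_pos.2 h)] at k1
  rw [div_lt_iff₀ (sub_pos.2 h)] at k2
  obtain ⟨α, rfl⟩ := ha
  obtain ⟨β, rfl⟩ := hb
  obtain ⟨α', rfl⟩ := ha'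
  obtain ⟨β', rfl⟩ := hb'
  have lt : E.Λ ^ k < E.Λ ^ (k + 1) := zpow_lt_zpow_right₀ E.Λ1 (by omega)
  have z : ∀ k : ℤ, E.ι ((E.l : K) ^ k) = E.Λ ^ k := fun k => map_zpow₀ _ _ _
  obtain ⟨c, hc, e⟩ : ∃ c ∈ Set.range E.ι, (E.Λ ^ (k + 1) - E.Λ ^ k) * (E.ι β - c) =
      E.ι β' - E.ι α' - E.Λ ^ k * (E.ι β - E.ι α) := by
    refine ⟨_, ⟨β - (β' - α' - (E.l : K) ^ k * (β - α)) / ((E.l : K) ^ (k + 1) - (E.l : K) ^ k), rfl⟩, ?_⟩
    have := (sub_pos.2 lt).ne'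
    simp only [map_sub, map_div₀, map_mul, z]
    field_simp
    ring
  have e1 : E.af ⟨α' - (E.l : K) ^ k * α, k⟩ c = E.af ⟨β' - (E.l : K) ^ (k + 1) * β, k + 1⟩ c := by
    simp only [af_apply, map_sub, map_mul, z]
    linarith
  refine ⟨_, glue_mem (af_loc _) (af_loc _) hc e1, ?_, ?_⟩
  · rw [glue_le e1 (by nlinarith)]
    simp [af_apply, z]
  · rw [glue_ge e1 (by nlinarith)]
    simp [af_apply, z]

variable (E)

/-- The compactly supported elements. -/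
def S : Subgroup Au where
  carrier := {f | f ∈ E.Sh ∧ ∃ R, FL f (-R) ∧ FR f R}
  one_mem' := ⟨one_mem _, 0, fun _ _ => rfl, fun _ _ => rfl⟩
  mul_mem' := by
    rintro f g ⟨a0, R, a1, a2⟩ ⟨b0, R', b1, b2⟩
    exact ⟨mul_mem a0 b0, max R R', (a1.mono (by simp)).mul (b1.mono (by simp)),
      (a2.mono (by simp)).mul (b2.mono (by simp))⟩
  inv_mem' := by
    rintro f ⟨a0, R, a1, a2⟩
    exact ⟨inv_mem a0, R, a1.inv, a2.inv⟩

theorem S_of {f : Au} (h : f ∈ E.Sh) {p q : ℝ} (h1 : FL f p) (h2 : FR f q) : f ∈ E.S :=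
  ⟨h, max (-p) q, h1.mono (by linarith [le_max_left (-p) q]), h2.mono (le_max_right _ _)⟩

theorem hyp : Hyp (Set.range E.ι) E.S := by
  refine ⟨fun f hf => hf.2, fun a b h => ?_, fun p hp s hs s' hs' q hq h1 h2 h3 h4 => ?_⟩
  · obtain ⟨q, q1, q2⟩ := exists_rat_btwn h
    have : CharZero K := E.ι.charZero
    exact ⟨q, ⟨q, map_ratCast _ _⟩, q1, q2⟩
  · obtain ⟨u, hu, u1, u2⟩ := segmap hp hs hp hs' h1 h3
    obtain ⟨v, hv, v1, v2⟩ := segmap hs hq hs' hq h2 h4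
    have e1 : v q = (1 : Au) q := v2
    have e2 : u s = glue _ _ _ e1 s := by rw [glue_le e1 h2.le, u2, v1]
    have e3 : (1 : Au) p = glue _ _ _ e2 p := by rw [glue_le e2 h1.le, u1]; rfl
    have l : FL (glue _ _ _ e3) p := fun t ht => glue_le e3 ht
    have r : FR (glue _ _ _ e3) q := fun t ht => by
      rw [glue_ge e3 (by linarith), glue_ge e2 (by linarith), glue_ge e1 ht]; rfl
    exact ⟨_, E.S_of (glue_mem (one_mem _) (glue_mem hu (glue_mem hv (one_mem _) hq e1) hs e2) hp e3)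
      l r, l, r, by rw [glue_ge e3 h1.le, glue_le e2 le_rfl, u2]⟩

theorem theta (γ : MM E.l) : ∃ θ ∈ E.Sh, FL θ 0 ∧ E.RGm θ 0 γ := by
  choose! φ hφ using fun x (hx : 0 < x) => E.ψ_surj hx
  have φψ : ∀ s, φ (E.ψ s) = s := fun s => E.ψ_sm.injective (hφ _ (E.ψ_pos s))
  let F : ℝ → ℝ := fun x => if x ≤ 0 then x else E.ψ (E.af γ (φ x))
  have F1 : ∀ x, x ≤ 0 → F x = x := fun x hx => if_pos hx
  have F2 : ∀ s, F (E.ψ s) = E.ψ (E.af γ s) := fun s => by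
    simp only [F, if_neg (not_le.2 (E.ψ_pos s)), φψ]
  have sm : StrictMono F := fun x y h => by
    rcases le_or_gt y 0 with k | k
    · rwa [F1 y k, F1 x (h.le.trans k)]
    · obtain ⟨t, rfl⟩ := E.ψ_surj k
      rw [F2]
      rcases le_or_gt x 0 with k' | k'
      · rw [F1 x k']
        exact k'.trans_lt (E.ψ_pos _)
      · obtain ⟨s, rfl⟩ := E.ψ_surj k'
        rw [F2]
        exact E.ψ_sm ((E.af γ).strictMono (E.ψ_sm.lt_iff_lt.1 h))
  have su : Function.Surjective F := fun y => by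
    rcases le_or_gt y 0 with k | k
    · exact ⟨y, F1 y k⟩
    · obtain ⟨t, rfl⟩ := E.ψ_surj k
      exact ⟨_, by rw [F2, af_inv]⟩
  have rg : E.RGm F 0 γ := Eventually.of_forall fun s => by rw [zero_add, F2, F1 0 le_rfl, zero_add]
  have one : ∀ p, E.Loc id p := E.Sh.one_mem
  refine ⟨sm.orderIsoOfSurjective F su, fun p => ?_, F1, rg⟩
  show E.Loc F p
  rcases lt_trichotomy p 0 with k | rfl | k
  · have : ∀ᶠ s in 𝓝 p, F s = id s := by
      filter_upwards [Iio_mem_nhds k] with s hs using F1 s (le_of_lt hs)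
    exact loc_of (nhdsWithin_le_nhds this) (nhdsWithin_le_nhds this) (one p) (one p) (Or.inr rfl)
  · exact ⟨⟨1, eventually_nhdsWithin_of_forall fun s hs => by rw [F1 s hs, map_one]; rfl⟩,
      fun k => absurd ⟨0, map_zero _⟩ k, fun _ => ⟨γ, rg⟩⟩
  · obtain ⟨s, rfl⟩ := E.ψ_surj k
    have key : ∀ N : ℝ → Filter ℝ, (∀ (g : Au) t, Tendsto g (N t) (N (g t))) → ∀ α β : MM E.l,
        E.ψ s = E.af α s → (∀ᶠ t in N s, E.ψ t = E.af α t) →
        (∀ᶠ t in N (E.af γ s), E.ψ t = E.af β t) →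
        ∀ᶠ x in N (E.ψ s), F x = E.af (β * γ * α⁻¹) x := fun N hN α β h0 h1 h2 => by
      have t1 := hN (E.af α⁻¹) (E.ψ s)
      rw [show E.af α⁻¹ (E.ψ s) = s by rw [h0, af_inv']] at t1
      filter_upwards [t1.eventually h1, t1.eventually ((hN (E.af γ) s).eventually h2)] with x a b
      rw [af_inv] at a
      rw [af_mul, af_mul, ← b, ← F2, a]
    obtain ⟨α, α', a1, a2, a3⟩ := E.ψ_pl s
    obtain ⟨β, β', b1, b2, b3⟩ := E.ψ_pl (E.af γ s)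
    have v := a1.self_of_nhdsWithin Set.self_mem_Iic
    refine PLat.loc ⟨_, _, key (fun t => 𝓝[≤] t) tendL α β v a1 b1,
      key (fun t => 𝓝[≥] t) tendR α' β' (a2.self_of_nhdsWithin Set.self_mem_Ici) a2 b2, fun k => ?_⟩
    have : s ∉ Set.range E.ι := fun k' => k (v ▸ E.af_mem α k')
    rw [a3 this, b3 (E.af_nmem γ this)]

end Emb

end Pool.Agent.H.MP_7c6b96_al
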