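import Pool.Agent.H.MP_7c6b96_al.D

set_option autoImplicit false

namespace Pool.Agent.H.MP_7c6b96_al

open Filter Topology
open Pool.Agent.H.MP_23b8d1_al
open Pool.Agent.H.MP_ab86ea_al (glue glue_le glue_ge)

theorem Hyp.trans {K : Set ℝ} {G : Subgroup Au} (h : Hyp K G) {s t : ℝ} (hs : s ∈ K) (ht : t ∈ K) :
    ∃ y ∈ G, ∃ p q, FL y p ∧ FR y q ∧ y s = t := by
  obtain ⟨p, hp, -, p1⟩ := h.dense (min s t - 1) (min s t) (by linarith)
  obtain ⟨q, hq, q1, -⟩ := h.dense (max s t) (max s t + 1) (by linarith)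
  obtain ⟨y, hy, a⟩ := h.tent p hp s hs t ht q hq (p1.trans_le (min_le_left _ _))
    ((le_max_left _ _).trans_lt q1) (p1.trans_le (min_le_right _ _)) ((le_max_right _ _).trans_lt q1)
  exact ⟨y, hy, p, q, a⟩

theorem ext_of {g : Au} {l : ℝ} (h : FL g l) (k : ∀ᶠ s in 𝓝[>] l, g s = s) :
    ∃ e, l < e ∧ FL g e := by
  obtain ⟨u, hu, k⟩ := mem_nhdsGT_iff_exists_Ioc_subset.1 k
  refine ⟨u, hu, fun t ht => ?_⟩
  rcases le_or_gt t l with e | e
  · exact h t e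
  · exact k ⟨e, ht⟩

namespace Emb

variable {K : Type} [Field K] (E : Emb K)

theorem z0 : (0 : ℝ) ∈ Set.range E.ι := ⟨0, map_zero _⟩

variable {E}

theorem af_ev {γ : MM E.l} {N : Filter ℝ} [N.NeBot] (hN : ∀ t, ∀ᶠ s in N, s ≠ t)
    (h : ∀ᶠ s in N, E.af γ s = s) : γ = 1 := by
  obtain ⟨s, hs⟩ := h.exists
  obtain ⟨t, h1, h2⟩ := (h.and (hN s)).exists
  exact E.af_two h2 h1 hs

theorem neL (p t : ℝ) : ∀ᶠ s in 𝓝[<] p, s ≠ t := by
  rcases lt_or_ge t p with h | h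
  · filter_upwards [Ioo_mem_nhdsLT h] with s hs using hs.1.ne'
  · filter_upwards [self_mem_nhdsWithin] with s hs using (lt_of_lt_of_le hs h).ne

theorem neR (p t : ℝ) : ∀ᶠ s in 𝓝[>] p, s ≠ t := by
  rcases lt_or_ge p t with h | h
  · filter_upwards [Ioo_mem_nhdsGT h] with s hs using hs.2.ne
  · filter_upwards [self_mem_nhdsWithin] with s hs using (lt_of_le_of_lt h hs).ne'

theorem rg_one {g : Au} {l : ℝ} (h : FL g l) (k : E.RGm g l 1) : ∀ᶠ s in 𝓝[>] l, g s = s := by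
  refine E.of_bot (Q := fun s => g s = s) ?_
  filter_upwards [k] with s hs
  rw [hs, h l le_rfl, map_one]; rfl

variable (E)

/-- Leftmost germs. -/
noncomputable def germL : Germ E.S (MM E.l) where
  LG g p γ := p ∈ Set.range E.ι ∧ FL g p ∧ E.RGm g p γ
  ex g hg h1 := by
    obtain ⟨R, r, -⟩ := hg.2
    obtain ⟨l, fl, fr⟩ := exfr r h1
    have hl : l ∈ Set.range E.ι := by
      by_contra k
      obtain ⟨γ, hγ⟩ := (hg.1 l).2.1 k
      obtain rfl : γ = 1 := af_ev (neL l) (by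
        filter_upwards [nhdsWithin_le_nhds hγ, self_mem_nhdsWithin] with s a b
        rw [← a, fl s (le_of_lt b)])
      refine fr ?_
      filter_upwards [nhdsWithin_le_nhds hγ] with s a
      rw [map_one] at a
      exact not_not.2 a
    obtain ⟨γ, hγ⟩ := (hg.1 l).2.2 hl
    refine ⟨l, γ, ?_, hl, fl, hγ⟩
    rintro rfl
    exact fr ((rg_one fl hγ).mono fun s a => not_not.2 a)
  fl h := h.2.1
  mul := fun ⟨a0, a1, a2⟩ ⟨_, b1, b2⟩ => ⟨a0, a1.mul b1, RGm.mul (by rwa [b1 _ le_rfl]) b2⟩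
  inv := fun ⟨a0, a1, a2⟩ => ⟨a0, a1.inv, by have := a2.inv; rwa [a1 _ le_rfl] at this⟩
  one := fun {f g l l' γ} ⟨a0, _, _⟩ h k => ⟨a0, h.mono k.le, by
    filter_upwards [(E.to_nhds l).eventually (Ioo_mem_nhdsGT k)] with s hs
    rw [h _ hs.2.le, h l k.le, map_one]; rfl⟩
  ext := fun ⟨_, a1, a2⟩ => ext_of a1 (rg_one a1 a2)
  fr := fun {g l γ} ⟨_, a1, a2⟩ h k => h (af_ev (N := atBot) eventually_ne_atBot (by
    filter_upwards [(E.to_nhds l).eventually k, a2] with s b1 b2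
    rw [not_not, b2, a1 l le_rfl, add_right_inj] at b1
    exact E.ψ_sm.injective b1))
  cj := fun {g l γ} ⟨a0, a1, a2⟩ x hx => by
    obtain ⟨δ, hδ⟩ := (hx.1 l).2.2 a0
    refine ⟨δ, (hx.1 l).mem a0, a1.cj x, RGm.mul ?_ hδ.inv⟩
    rw [RelIso.inv_apply_self]
    exact RGm.mul (by rwa [a1 _ le_rfl]) a2
  tr := fun ⟨a0, _, _⟩ => by
    obtain ⟨y, hy, -, -, -, -, e⟩ := E.hyp.trans a0 E.z0
    exact ⟨y, hy, e⟩
  re γ := by
    obtain ⟨θ, h0, h1, h2⟩ := E.theta γ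
    have o : (1 : ℝ) ∈ Set.range E.ι := ⟨1, map_one _⟩
    obtain ⟨y, hy, p, q, -, y2, e⟩ := E.hyp.trans o ((h0 1).mem o)
    have fl : FL (glue _ _ _ e.symm) 0 := fun t ht => by
      rw [glue_le e.symm (ht.trans zero_le_one), h1 t ht]
    refine ⟨glue _ _ _ e.symm, E.S_of (q := max 1 q) (glue_mem h0 hy.1 o e.symm) fl fun t ht => ?_,
      E.z0, fl, ?_⟩
    · rw [glue_ge e.symm ((le_max_left _ _).trans ht), y2 t ((le_max_right _ _).trans ht)]
    · filter_upwards [(E.to_nhds 0).eventually (Ioo_mem_nhdsGT one_pos), h2] with s a b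
      rw [glue_le e.symm a.2.le, glue_le e.symm zero_le_one, b]

theorem tneg (p : ℝ) : Tendsto (fun s : ℝ => -s) (𝓝[>] p) (𝓝[≤] (-p)) :=
  tendsto_nhdsWithin_iff.2 ⟨(continuous_neg.tendsto p).mono_left nhdsWithin_le_nhds,
    eventually_nhdsWithin_of_forall fun _ hs => Set.mem_Iic.2 (neg_le_neg (le_of_lt hs))⟩

theorem slope {g : Au} (h : σ g ∈ E.S) (p : ℝ) : ∃ k : ℤ, RG g p (E.Λ ^ k) := by
  obtain ⟨γ, hγ⟩ := (h.1 (-p)).1
  have e := hγ.self_of_nhdsWithin Set.self_mem_Iic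
  refine ⟨γ.k, ?_⟩
  filter_upwards [(tneg p).eventually hγ] with s hs
  rw [σ_apply, neg_neg, af_apply] at hs e
  linarith

theorem rg_one' {g : Au} {l : ℝ} (h : FL g l) (k : RG g l (E.Λ ^ (1 : Multiplicative ℤ).toAdd)) :
    ∀ᶠ s in 𝓝[>] l, g s = s := by
  filter_upwards [k] with s hs
  rw [hs, h l le_rfl]; simp

/-- Rightmost germs, after reflection. -/
noncomputable def germR : Germ (E.S.comap σ) (Multiplicative ℤ) where
  LG g p k := -p ∈ Set.range E.ι ∧ FL g p ∧ RG g p (E.Λ ^ k.toAdd)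
  ex g hg h1 := by
    obtain ⟨R, r, -⟩ := E.hyp.σ.cs g hg
    obtain ⟨l, fl, fr⟩ := exfr r h1
    have hl : -l ∈ Set.range E.ι := by
      by_contra k
      obtain ⟨γ, hγ⟩ := (hg.1 (-l)).2.1 k
      obtain rfl : γ = 1 := af_ev (neR (-l)) (by
        filter_upwards [nhdsWithin_le_nhds hγ, self_mem_nhdsWithin] with s a b
        rw [← a, fl.σ s (le_of_lt b)])
      refine fr ?_
      filter_upwards [(tneg l).eventually (nhdsWithin_le_nhds hγ)] with s a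
      rw [map_one, σ_apply, neg_neg] at a
      exact not_not.2 (neg_injective a)
    obtain ⟨k, hk⟩ := E.slope hg l
    refine ⟨l, Multiplicative.ofAdd k, fun e => ?_, hl, fl, hk⟩
    exact fr ((E.rg_one' fl (e ▸ hk)).mono fun s a => not_not.2 a)
  fl h := h.2.1
  mul := fun ⟨a0, a1, a2⟩ ⟨_, b1, b2⟩ => ⟨a0, a1.mul b1, by
    rw [toAdd_mul, zpow_add₀ E.Λ0.ne']
    exact RG.mul (by rwa [b1 _ le_rfl]) b2⟩
  inv := fun ⟨a0, a1, a2⟩ => ⟨a0, a1.inv, by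
    have := a2.inv
    rwa [a1 _ le_rfl, ← zpow_neg] at this⟩
  one := fun {f g l l' γ} ⟨a0, _, _⟩ h k => ⟨a0, h.mono k.le, by
    filter_upwards [Ioo_mem_nhdsGT k] with s hs
    rw [h _ hs.2.le, h l k.le]; simp⟩
  ext := fun ⟨_, a1, a2⟩ => ext_of a1 (E.rg_one' a1 a2)
  fr := fun {g l γ} ⟨_, a1, a2⟩ h k => h (by
    obtain ⟨s, ⟨b1, b2⟩, b3⟩ := ((k.and a2).and self_mem_nhdsWithin).exists
    rw [not_not, b2, a1 l le_rfl] at b1
    have : (E.Λ ^ γ.toAdd - 1) * (s - l) = 0 := by linarith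
    have e := sub_eq_zero.1 ((mul_eq_zero.1 this).resolve_right (sub_pos.2 b3).ne')
    exact toAdd_eq_zero.1 ((zpow_eq_one_iff_right₀ E.Λ0.le E.Λ1.ne').1 e))
  cj := fun {g l γ} ⟨a0, a1, a2⟩ x hx => by
    obtain ⟨j, hj⟩ := E.slope hx l
    refine ⟨Multiplicative.ofAdd j, by simpa using (hx.1 (-l)).mem a0, a1.cj x, ?_⟩
    rw [toAdd_mul, toAdd_mul, toAdd_inv, toAdd_ofAdd, zpow_add₀ E.Λ0.ne', zpow_add₀ E.Λ0.ne', zpow_neg]
    refine RG.mul ?_ hj.inv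
    rw [RelIso.inv_apply_self]
    exact RG.mul (by rwa [a1 _ le_rfl]) a2
  tr := fun ⟨a0, _, _⟩ => by
    obtain ⟨y, hy, -, -, -, -, e⟩ := E.hyp.σ.trans a0 (t := 0) (by simpa using E.z0)
    exact ⟨y, hy, e⟩
  re k := by
    have o : (-1 : ℝ) ∈ Set.range E.ι := ⟨-1, by simp⟩
    obtain ⟨w, hw, p, q, w1, -, e⟩ := E.hyp.trans o (E.af_mem ⟨0, k.toAdd⟩ o)
    have e1 : E.af ⟨0, k.toAdd⟩ 0 = (1 : Au) 0 := by simp [af_apply]
    have e2 : w (-1) = glue _ _ _ e1 (-1) := by rw [glue_le e1 (by norm_num), e]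
    have fr : FR (glue _ _ _ e2) 0 := fun t ht => by
      rw [glue_ge e2 (by linarith), glue_ge e1 ht]; rfl
    refine ⟨σ (glue _ _ _ e2), ?_, by simpa using E.z0, by simpa using fr.σ, ?_⟩
    · rw [Subgroup.mem_comap, σσ]
      refine E.S_of (p := min p (-1)) (glue_mem hw.1 (glue_mem (af_loc _) (one_mem _) E.z0 e1) o e2)
        (fun t ht => ?_) fr
      rw [glue_le e2 (ht.trans (min_le_right _ _)), w1 t (ht.trans (min_le_left _ _))]
    · filter_upwards [Ioo_mem_nhdsGT one_pos] with s hs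
      rw [σ_apply, σ_apply, fr (-0) (by simp), glue_ge e2 (by linarith [hs.2]),
        glue_le e1 (by linarith [hs.1]), af_apply]
      simp

end Emb

theorem final (k : ℕ) (hk : 0 < k) :
    ∃ (G : Type) (_ : Group G), (Cone G).encard = ((2 * k : ℕ) : ℕ∞) := by
  obtain ⟨n, rfl | rfl⟩ := Nat.even_or_odd' k
  · obtain ⟨K, _, _, ⟨D⟩⟩ := exNF (n := n) (by omega)
    exact ⟨_, inferInstance, (cone_MM D).trans (by congr 1; ring)⟩
  rcases n.eq_zero_or_pos with rfl | hn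
  · exact ⟨_, inferInstance, cone_int⟩
  obtain ⟨K, _, _, ⟨D⟩⟩ := exNF hn
  obtain ⟨ι⟩ := D.ex hn
  let E : Emb K := ⟨ι, D.lam, D.pos ι⟩
  have : Nontrivial (MM E.l) := ⟨⟨⟨0, 1⟩, 1, fun e => one_ne_zero (congrArg MM.k e)⟩⟩
  refine ⟨_, inferInstance, (total E.hyp E.germL E.germR).trans ?_⟩
  rw [cone_int, cone_MM D]
  push_cast
  ring

end Pool.Agent.H.MP_7c6b96_al
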